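import Mathlib
import Pool.Agent.Y71.FB.GlobB
import Pool.Agent.Y248.FC.Fin
set_option autoImplicit false

/-! # Project FD: from the critical exponents to all exponents, for classes of measures -/

namespace Pool.Agent.Y248.FD

open MeasureTheory Set Metric Complex Filter
open scoped ENNReal RealInnerProductSpace Topology FourierTransform
open Pool.Agent.H789R2.FR (E sg T)
open Pool.Agent.H438R2.RZ (Bump)
open Pool.Agent.Y248.BA (mu Kr Tp int_of_loc)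
open Pool.Agent.Y248.FB Pool.Agent.Y248.FC

/-- the bound of the pieces for a class `X` of measures -/
def PQ (n : ℕ) (X : Measure (E n) → Prop) (p σ : ℝ) : Prop := ∀ ψ : ℝ → ℝ, Bump ψ →
  ∃ C : ℝ, 0 < C ∧ ∀ μ : Measure (E n), X μ → ∀ A : ℝ, 1 ≤ A →
  ∀ f : E n → ℂ, Measurable f → Integrable f → ∫⁻ x, ‖f x‖ₑ ^ p ≠ ∞ →
    ∫⁻ x, ‖Tp ψ A 1 f x‖ₑ ^ p ∂μ ≤ ENNReal.ofReal (C * A ^ (p * σ)) * ∫⁻ x, ‖f x‖ₑ ^ p

/-- globalisation for classes of measures -/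
theorem pq_of_local (n : ℕ) (hn : 2 ≤ n) (X : Measure (E n) → Prop) (D : ℝ) (hD : 0 < D)
    (hX : ∀ μ, X μ → DimC n D μ) (p ε σ : ℝ) (hp : 1 ≤ p) (hε : 0 < ε)
    (H : ∀ ψ : ℝ → ℝ, Bump ψ → ∃ C : ℝ, 0 < C ∧ ∀ μ : Measure (E n), X μ → ∀ A : ℝ, 1 ≤ A →
      ∀ (u : E n) (f : E n → ℂ), Measurable f → Integrable f →
      (∀ x, x ∉ closedBall u (2 * A ^ (1 + ε)) → f x = 0) → ∫⁻ x, ‖f x‖ₑ ^ p ≠ ∞ →
      ∫⁻ x in closedBall u (A ^ (1 + ε)), ‖Tp ψ A 1 f x‖ₑ ^ p ∂μ ≤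
        ENNReal.ofReal (C * A ^ (p * σ)) * ∫⁻ x, ‖f x‖ₑ ^ p) : PQ n X p σ := by
  intro ψ hψ
  obtain ⟨C₁, hC₁, h1⟩ := H ψ hψ
  obtain ⟨C, hC, hb⟩ := Pool.Agent.Y71.FB.t_gl n hn ψ hψ n p ε |p * σ| (by positivity) le_rfl hp hε
  refine ⟨D * (2 ^ (p - 1) * (2 ^ n * (D⁻¹ * C₁) + C)), by positivity,
    fun μ hμ A hA f hf hfi hfp => ?_⟩
  have hA0 : 0 < A := by linarith
  have h2 := hb (ENNReal.ofReal D⁻¹ • μ) (Dim.of_smul hD (hX μ hμ)) A hA (fun _ => 1) radii_one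
    (D⁻¹ * C₁ * A ^ (p * σ)) (by positivity) (fun u g hg hg2 hg3 => by
      rw [Measure.restrict_smul, lintegral_smul_measure, smul_eq_mul]
      refine (mul_le_mul' le_rfl (h1 μ hμ A hA u g hg (int_of_loc hg hg2 p hp hg3) hg2 hg3)).trans
        (le_of_eq ?_)
      rw [← mul_assoc, ← ENNReal.ofReal_mul (by positivity), mul_assoc]) f hf hfp
  rw [lintegral_smul_measure, smul_eq_mul] at h2
  have h3 := mul_le_mul' (le_refl (ENNReal.ofReal D)) h2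
  rw [← mul_assoc, ← ENNReal.ofReal_mul hD.le, mul_inv_cancel₀ hD.ne', ENNReal.ofReal_one,
    one_mul, ← mul_assoc, ← ENNReal.ofReal_mul hD.le] at h3
  refine h3.trans (mul_le_mul' (ENNReal.ofReal_le_ofReal ?_) le_rfl)
  have h6 : A ^ (-|p * σ|) ≤ A ^ (p * σ) :=
    Real.rpow_le_rpow_of_exponent_le hA (neg_abs_le _)
  calc D * (2 ^ (p - 1) * (2 ^ n * (D⁻¹ * C₁ * A ^ (p * σ)) + C * A ^ (-|p * σ|)))
      ≤ D * (2 ^ (p - 1) * (2 ^ n * (D⁻¹ * C₁ * A ^ (p * σ)) + C * A ^ (p * σ))) := by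
        gcongr
    _ = _ := by ring

/-- `UP`: from `q = 2n/(n-1)` to `p > q` -/
def S_UP (n : ℕ) : Prop := ∀ (X : Measure (E n) → Prop) (D : ℝ), 0 < D →
  (∀ μ, X μ → DimC n D μ) →
  (∀ τ : ℝ, 0 < τ → PQ n X (2 * (n : ℝ) / ((n : ℝ) - 1)) τ) →
  ∀ p σ : ℝ, 2 * (n : ℝ) / ((n : ℝ) - 1) < p → (n : ℝ) * (1 / 2 - 1 / p) - 1 / 2 < σ → PQ n X p σ

/-- `DN`: from `q = 2n/(n+1)` to `1 ≤ p < q` -/
def S_DN (n : ℕ) : Prop := ∀ (X : Measure (E n) → Prop) (D : ℝ), 0 < D →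
  (∀ μ, X μ → DimC n D μ) →
  (∀ τ : ℝ, 0 < τ → PQ n X (2 * (n : ℝ) / ((n : ℝ) + 1)) τ) →
  ∀ p σ : ℝ, 1 ≤ p → p < 2 * (n : ℝ) / ((n : ℝ) + 1) → (n : ℝ) * (1 / p - 1 / 2) - 1 / 2 < σ →
    PQ n X p σ

end Pool.Agent.Y248.FD
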