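import Mathlib
import Pool.Agent.Y248.FC.Stm
set_option autoImplicit false

/-! # Project FD: cylinders over subsets of the line: definitions, statements

The dimension is `m + 1`, the last coordinate is `pr m x : E 1`, the others form `hd m x : E m`. -/

namespace Pool.Agent.Y248.FD

open MeasureTheory Set Metric Complex Filter
open scoped ENNReal RealInnerProductSpace Topology FourierTransform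
open Pool.Agent.H789R2.FR (E sg T)
open Pool.Agent.H438R2.RZ (Bump)
open Pool.Agent.Y248.BA (mu Kr Tp)
open Pool.Agent.Y248.FB Pool.Agent.Y248.FC

/-- the first `m` coordinates -/
noncomputable def hd (m : ℕ) {k : ℕ} (x : E (m + k)) : E m :=
  (EuclideanSpace.finAddEquivProd (𝕜 := ℝ) (n := m) (m := k) x).1

/-- smooth cutoffs (functions of the square of the last coordinate) -/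
def Cut (θ : ℝ → ℝ) : Prop := ContDiff ℝ (⊤ : ℕ∞) θ ∧ ∀ s, 2 ≤ s → θ s = 0

/-- pieces near the equator: `|ξ_n|` at most about `l` -/
noncomputable def pm (m : ℕ) (ψ θ : ℝ → ℝ) (A l : ℝ) (ξ : E (m + 1)) : ℂ :=
  mu ψ A 1 ξ * ((θ (‖pr m ξ‖ ^ 2 / l ^ 2) : ℝ) : ℂ)

/-- the piece away from the equator -/
noncomputable def hi (m : ℕ) (ψ θ : ℝ → ℝ) (A : ℝ) (ξ : E (m + 1)) : ℂ :=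
  mu ψ A 1 ξ * ((1 - θ (64 * ‖pr m ξ‖ ^ 2) : ℝ) : ℂ)

/-- the energy with multiplier `q` -/
noncomputable def En {n : ℕ} (q : E n → ℂ) (g : E n → ℂ) (μ : Measure (E n)) : ℝ≥0∞ :=
  ∫⁻ ξ, ‖q ξ * Fm g μ ξ‖ₑ ^ (2 : ℝ)

/-- the operator with multiplier `q` -/
noncomputable def Tq {n : ℕ} (q : E n → ℂ) (f : E n → ℂ) (x : E n) : ℂ :=
  ∫ y : E n, 𝓕 q (x - y) * f y

/-- measures on the line (on `E 1`) of dimension at most `β` at scales at least one -/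
def LD (β K₀ : ℝ) (ν : Measure (E 1)) : Prop :=
  ∀ (t : E 1) (r : ℝ), 1 ≤ r → ν (closedBall t r) ≤ ENNReal.ofReal (K₀ * r ^ β)

/-- boxes -/
def Box (m : ℕ) (l : ℝ) (u : E (m + 1)) (ρ : ℝ) : Set (E (m + 1)) :=
  {x | ‖hd m x - hd m u‖ ≤ ρ ∧ ‖pr m x - pr m u‖ ≤ l * ρ}

/-- `KL`: kernels of the pieces near the equator, in terms of the first `m` coordinates -/
def S_KL (m : ℕ) : Prop := ∀ ψ θ : ℝ → ℝ, Bump ψ → Cut θ → ∃ C : ℝ, 0 < C ∧ ∀ A : ℝ, 4 ≤ A →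
  ∀ l : ℝ, 0 < l → l ≤ 1 / 8 → ∀ x : E (m + 1),
    ‖𝓕 (pm m ψ θ A l) x‖ ≤ C / A * (1 + ‖hd m x‖) ^ (-(m : ℝ) / 2) ∧
    ‖𝓕 (pm m ψ θ A l) x‖ ≤ C * l / A * (1 + ‖hd m x‖) ^ (-((m : ℝ) - 1) / 2)

/-- `KH`: kernel of the piece `l = 1/8`, decay in all variables -/
def S_KH (m : ℕ) : Prop := ∀ ψ θ : ℝ → ℝ, Bump ψ → Cut θ → ∃ C : ℝ, 0 < C ∧ ∀ A : ℝ, 4 ≤ A →
  ∀ x : E (m + 1), ‖𝓕 (pm m ψ θ A (1 / 8)) x‖ ≤ C / A * (1 + ‖x‖) ^ (-(m : ℝ) / 2)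

/-- `DC`: rapid decay of the kernels outside boxes -/
def S_DC (m : ℕ) : Prop := ∀ ψ θ : ℝ → ℝ, Bump ψ → Cut θ → ∀ N : ℕ, ∃ C : ℝ, 0 < C ∧
  ∀ A : ℝ, 4 ≤ A → ∀ l : ℝ, 0 < l → l ≤ 1 → 1 ≤ A * l ^ 2 → ∀ x : E (m + 1),
    (‖hd m x‖ + ‖pr m x‖ / l) ^ N * ‖𝓕 (pm m ψ θ A l) x‖ ≤ C * A ^ N

/-- `GA`: gains -/
def S_GA (m : ℕ) : Prop := ∃ C : ℝ, 0 < C ∧ ∀ β K₀ : ℝ, 0 ≤ β → β ≤ 1 → 0 ≤ K₀ →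
  ∀ ν : Measure (E 1), LD β K₀ ν → ∀ ρ : ℝ, 1 ≤ ρ → ∀ g : E (m + 1) → ℂ, BB g →
    (∀ l : ℝ, 0 < l → l ≤ 1 →
      ∫⁻ ξ in {ξ : E (m + 1) | |‖ξ‖ ^ 2 - 1| ≤ 1 / ρ ∧ ‖pr m ξ‖ ≤ 2 * l ∧
        (l / 2 ≤ ‖pr m ξ‖ ∨ ρ * l ^ 2 ≤ 16)}, ‖Fm g (cyl m ν) ξ‖ₑ ^ (2 : ℝ) ≤
        ENNReal.ofReal (C * K₀ * (min (1 / (ρ * l)) l) ^ (1 - β)) *
          ∫⁻ x, ‖g x‖ₑ ^ (2 : ℝ) ∂(cyl m ν)) ∧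
    ∫⁻ ξ in {ξ : E (m + 1) | |‖ξ‖ ^ 2 - 1| ≤ 1 / ρ ∧ 1 / 16 ≤ ‖pr m ξ‖},
      ‖Fm g (cyl m ν) ξ‖ₑ ^ (2 : ℝ) ≤
        ENNReal.ofReal (C * K₀ * ρ ^ (-(1 - β))) * ∫⁻ x, ‖g x‖ₑ ^ (2 : ℝ) ∂(cyl m ν)

/-- admissible parameters for the pieces near the equator -/
def Adm (θ : ℝ → ℝ) (A l : ℝ) : Prop :=
  4 ≤ A ∧ 0 < l ∧ l ≤ 1 / 8 ∧ 1 ≤ A * l ^ 2 ∧ ((∀ s, s < 1 / 4 → θ s = 0) ∨ A * l ^ 2 ≤ 16)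

/-- `SPL`: splitting at scale `r` in the first `m` coordinates, near the equator -/
def S_SPL (m : ℕ) : Prop := ∀ ψ θ : ℝ → ℝ, Bump ψ → Cut θ → ∀ β K₀ : ℝ, 0 ≤ β → β ≤ 1 → 0 ≤ K₀ →
  ∃ C : ℝ, 0 < C ∧ ∀ ν : Measure (E 1), LD β K₀ ν → ∀ A l : ℝ, Adm θ A l →
  ∀ r : ℝ, 3 ≤ r → r ≤ A → ∀ g : E (m + 1) → ℂ, BB g →
    En (pm m ψ θ A l) g (cyl m ν) ≤
      ENNReal.ofReal (C / A * (r ^ (-(m : ℝ) / 2) * min 1 (l * r ^ (1 / 2 : ℝ)))) *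
        (∫⁻ x, ‖g x‖ₑ ∂(cyl m ν)) ^ (2 : ℝ) +
      ENNReal.ofReal (C / A * (r * (min (1 / (r * l)) l) ^ (1 - β))) *
        ∫⁻ x, ‖g x‖ₑ ^ (2 : ℝ) ∂(cyl m ν)

/-- `SPH`: splitting at scale `r`, away from the equator -/
def S_SPH (m : ℕ) : Prop := ∀ ψ θ : ℝ → ℝ, Bump ψ → Cut θ → (∀ s, s ≤ 1 → θ s = 1) →
  ∀ β K₀ : ℝ, 0 ≤ β → β ≤ 1 → 0 ≤ K₀ →
  ∃ C : ℝ, 0 < C ∧ ∀ ν : Measure (E 1), LD β K₀ ν → ∀ A : ℝ, 4 ≤ A →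
  ∀ r : ℝ, 3 ≤ r → r ≤ A → ∀ g : E (m + 1) → ℂ, BB g →
    En (hi m ψ θ A) g (cyl m ν) ≤
      ENNReal.ofReal (C / A * r ^ (-(m : ℝ) / 2)) * (∫⁻ x, ‖g x‖ₑ ∂(cyl m ν)) ^ (2 : ℝ) +
      ENNReal.ofReal (C / A * r ^ β) * ∫⁻ x, ‖g x‖ₑ ^ (2 : ℝ) ∂(cyl m ν)

/-- `BS`: simple bounds -/
def S_BS (m : ℕ) : Prop := ∀ ψ θ : ℝ → ℝ, Bump ψ → Cut θ → ∀ β K₀ : ℝ, 0 ≤ β → β ≤ 1 → 0 ≤ K₀ →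
  ∃ C : ℝ, 0 < C ∧ ∀ ν : Measure (E 1), LD β K₀ ν →
    (∀ A l : ℝ, Adm θ A l → ∀ g : E (m + 1) → ℂ, BB g →
      En (pm m ψ θ A l) g (cyl m ν) ≤
        ENNReal.ofReal (C * (l / A)) * (∫⁻ x, ‖g x‖ₑ ∂(cyl m ν)) ^ (2 : ℝ) ∧
      En (pm m ψ θ A l) g (cyl m ν) ≤
        ENNReal.ofReal (C * (A * l) ^ (-(1 - β))) * ∫⁻ x, ‖g x‖ₑ ^ (2 : ℝ) ∂(cyl m ν)) ∧
    ((∀ s, s ≤ 1 → θ s = 1) → ∀ A : ℝ, 4 ≤ A → ∀ g : E (m + 1) → ℂ, BB g →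
      En (hi m ψ θ A) g (cyl m ν) ≤
        ENNReal.ofReal (C / A) * (∫⁻ x, ‖g x‖ₑ ∂(cyl m ν)) ^ (2 : ℝ) ∧
      En (hi m ψ θ A) g (cyl m ν) ≤
        ENNReal.ofReal (C * A ^ (-(1 - β))) * ∫⁻ x, ‖g x‖ₑ ^ (2 : ℝ) ∂(cyl m ν))

/-- `RT`: restricted estimates at the critical exponent (`n = m + 1`) -/
def S_RT (m : ℕ) : Prop := ∀ ψ θ : ℝ → ℝ, Bump ψ → Cut θ → ∀ β K₀ : ℝ, 0 ≤ β → β ≤ 1 / (m : ℝ) →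
  0 ≤ K₀ → ∃ C : ℝ, 0 < C ∧ ∀ ν : Measure (E 1), LD β K₀ ν →
  ∀ g : E (m + 1) → ℂ, BB g → ∀ S : Set (E (m + 1)), MeasurableSet S → cyl m ν S ≠ ∞ →
  (∀ x, ‖g x‖ ≤ 1) → (∀ x, x ∉ S → g x = 0) →
    (∀ A l : ℝ, Adm θ A l → En (pm m ψ θ A l) g (cyl m ν) ≤
      ENNReal.ofReal (C * (A ^ (m + 1) * l) ^ (-1 / ((m : ℝ) + 1))) *
        (cyl m ν S) ^ (1 + 1 / ((m : ℝ) + 1))) ∧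
    ((∀ s, s ≤ 1 → θ s = 1) → ∀ A : ℝ, 4 ≤ A → En (hi m ψ θ A) g (cyl m ν) ≤
      ENNReal.ofReal (C / A) * (cyl m ν S) ^ (1 + 1 / ((m : ℝ) + 1)))

/-- `LS`: from restricted estimates to strong estimates with a logarithmic loss -/
def S_LS (n : ℕ) : Prop := ∀ r : ℝ, 1 < r → r < 2 → ∃ C : ℝ, 0 < C ∧
  ∀ μ : Measure (E n), (∀ (x : E n) (ρ : ℝ), μ (closedBall x ρ) < ∞) →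
  ∀ q : E n → ℂ, Continuous q → (∀ ξ, 2 < ‖ξ‖ → q ξ = 0) →
  ∀ a B : ℝ, 0 < a → 2 ≤ B →
  (∀ g : E n → ℂ, BB g → ∀ S : Set (E n), MeasurableSet S → μ S ≠ ∞ → (∀ x, ‖g x‖ ≤ 1) →
    (∀ x, x ∉ S → g x = 0) → En q g μ ≤ ENNReal.ofReal a * (μ S) ^ (2 / r)) →
  (∀ g : E n → ℂ, BB g → En q g μ ≤ ENNReal.ofReal a * (∫⁻ x, ‖g x‖ₑ ∂μ) ^ (2 : ℝ)) →
  (∀ g : E n → ℂ, BB g → En q g μ ≤ ENNReal.ofReal (a * B) * ∫⁻ x, ‖g x‖ₑ ^ (2 : ℝ) ∂μ) →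
  ∀ g : E n → ℂ, BB g →
    En q g μ ≤ ENNReal.ofReal (C * a * (Real.log B) ^ 2) * (∫⁻ x, ‖g x‖ₑ ^ r ∂μ) ^ (2 / r)

/-- `MD`: duality for general multipliers -/
def S_MD (n : ℕ) : Prop := ∀ q : E n → ℂ, Continuous q → (∀ ξ, q (-ξ) = q ξ) →
  (∀ ξ, 2 < ‖ξ‖ → q ξ = 0) → ∀ μ : Measure (E n),
  (∀ (x : E n) (ρ : ℝ), μ (closedBall x ρ) < ∞) → ∀ p c : ℝ, 2 ≤ p → 0 ≤ c →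
  (∀ g : E n → ℂ, BB g → En q g μ ≤ ENNReal.ofReal c *
    (∫⁻ x, ‖g x‖ₑ ^ (p / (p - 1)) ∂μ) ^ (2 * (p - 1) / p)) →
  ∀ f : E n → ℂ, Integrable f → MemLp f 2 →
    ∫⁻ x, ‖Tq q f x‖ₑ ^ p ∂μ ≤ ENNReal.ofReal (c ^ (p / 2)) * (∫⁻ x, ‖f x‖ₑ ^ (2 : ℝ)) ^ (p / 2)

/-- `GB`: globalisation on boxes -/
def S_GB (m : ℕ) : Prop := ∀ p ε M : ℝ, 1 ≤ p → 0 < ε → ∃ N : ℕ, ∀ C₀ : ℝ, 0 < C₀ →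
  ∃ C : ℝ, 0 < C ∧ ∀ μ : Measure (E (m + 1)), Dim ((m : ℝ) + 1) μ → ∀ A : ℝ, 1 ≤ A →
  ∀ l : ℝ, 0 < l → l ≤ 1 → ∀ q : E (m + 1) → ℂ, Integrable q →
  (∀ x, (‖hd m x‖ + ‖pr m x‖ / l) ^ N * ‖𝓕 q x‖ ≤ C₀ * A ^ N) →
  ∀ D : ℝ, 0 ≤ D →
  (∀ (u : E (m + 1)) (g : E (m + 1) → ℂ), Measurable g →
    (∀ x, x ∉ Box m l u (2 * A ^ (1 + ε)) → g x = 0) → ∫⁻ x, ‖g x‖ₑ ^ p ≠ ∞ →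
    ∫⁻ x in Box m l u (A ^ (1 + ε)), ‖Tq q g x‖ₑ ^ p ∂μ ≤ ENNReal.ofReal D * ∫⁻ x, ‖g x‖ₑ ^ p) →
  ∀ f : E (m + 1) → ℂ, Measurable f → ∫⁻ x, ‖f x‖ₑ ^ p ≠ ∞ →
    ∫⁻ x, ‖Tq q f x‖ₑ ^ p ∂μ ≤
      ENNReal.ofReal (2 ^ (p - 1) * (2 ^ (m + 1) * D + C * A ^ (-M))) * ∫⁻ x, ‖f x‖ₑ ^ p

/-- `NB`: local estimates, `2 ≤ p ≤ 2n/(n-1)`, `n = m + 1` (for the high piece `l = 1`) -/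
def S_NB (m : ℕ) : Prop := ∀ ψ θ : ℝ → ℝ, Bump ψ → Cut θ → ∀ β K₀ p ε : ℝ, 0 ≤ β →
  β ≤ 1 / (m : ℝ) → 0 ≤ K₀ → 2 ≤ p → ((m : ℝ) + 1) * (1 - 2 / p) ≤ 1 → 0 < ε →
  ∃ C : ℝ, 0 < C ∧ ∀ ν : Measure (E 1), LD β K₀ ν →
    (∀ A l : ℝ, Adm θ A l → ∀ (u : E (m + 1)) (ρ : ℝ), 1 ≤ ρ → ∀ f : E (m + 1) → ℂ,
      Measurable f → (∀ x, x ∉ Box m l u (2 * ρ) → f x = 0) → ∫⁻ x, ‖f x‖ₑ ^ p ≠ ∞ →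
      ∫⁻ x, ‖Tq (pm m ψ θ A l) f x‖ₑ ^ p ∂(cyl m ν) ≤
        ENNReal.ofReal (C * (A ^ ε * ((A ^ (m + 1) * l) ^ (-(1 - 2 / p)) *
          ((A * l) ^ (-(1 - β))) ^ (1 - ((m : ℝ) + 1) * (1 - 2 / p)))) ^ (p / 2) *
          (l * ρ ^ (m + 1)) ^ (p / 2 - 1)) * ∫⁻ x, ‖f x‖ₑ ^ p) ∧
    ((∀ s, s ≤ 1 → θ s = 1) → ∀ A : ℝ, 4 ≤ A → ∀ (u : E (m + 1)) (ρ : ℝ), 1 ≤ ρ →
      ∀ f : E (m + 1) → ℂ, Measurable f → (∀ x, x ∉ Box m 1 u (2 * ρ) → f x = 0) →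
      ∫⁻ x, ‖f x‖ₑ ^ p ≠ ∞ →
      ∫⁻ x, ‖Tq (hi m ψ θ A) f x‖ₑ ^ p ∂(cyl m ν) ≤
        ENNReal.ofReal (C * (A ^ ε * ((A ^ (m + 1)) ^ (-(1 - 2 / p)) *
          (A ^ (-(1 - β))) ^ (1 - ((m : ℝ) + 1) * (1 - 2 / p)))) ^ (p / 2) *
          (ρ ^ (m + 1)) ^ (p / 2 - 1)) * ∫⁻ x, ‖f x‖ₑ ^ p)

/-- `SB`: local estimates, `1 < p < 2` -/
def S_SB (m : ℕ) : Prop := ∀ ψ θ : ℝ → ℝ, Bump ψ → Cut θ → ∀ β K₀ p ε : ℝ, 0 ≤ β → β ≤ 1 →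
  0 ≤ K₀ → 1 < p → p < 2 → 0 < ε →
  ∃ C : ℝ, 0 < C ∧ ∀ ν : Measure (E 1), LD β K₀ ν →
    (∀ A l : ℝ, Adm θ A l → ∀ (u : E (m + 1)) (ρ : ℝ), 1 ≤ l * ρ → ∀ f : E (m + 1) → ℂ,
      Measurable f → (∀ x, x ∉ Box m l u (2 * ρ) → f x = 0) → ∫⁻ x, ‖f x‖ₑ ^ p ≠ ∞ →
      ∫⁻ x in Box m l u ρ, ‖Tq (pm m ψ θ A l) f x‖ₑ ^ p ∂(cyl m ν) ≤
        ENNReal.ofReal (C * ((A * l) ^ (-(1 - β)) * A ^ (-th (m + 1) 0 (p / (p - 1)) + ε)) ^ (p / 2)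
          * (ρ ^ m * (l * ρ) ^ β) ^ (1 - p / 2)) * ∫⁻ x, ‖f x‖ₑ ^ p) ∧
    ((∀ s, s ≤ 1 → θ s = 1) → ∀ A : ℝ, 4 ≤ A → ∀ (u : E (m + 1)) (ρ : ℝ), 1 ≤ ρ →
      ∀ f : E (m + 1) → ℂ, Measurable f → (∀ x, x ∉ Box m 1 u (2 * ρ) → f x = 0) →
      ∫⁻ x, ‖f x‖ₑ ^ p ≠ ∞ →
      ∫⁻ x in Box m 1 u ρ, ‖Tq (hi m ψ θ A) f x‖ₑ ^ p ∂(cyl m ν) ≤
        ENNReal.ofReal (C * (A ^ (-(1 - β)) * A ^ (-th (m + 1) 0 (p / (p - 1)) + ε)) ^ (p / 2)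
          * (ρ ^ m * ρ ^ β) ^ (1 - p / 2)) * ∫⁻ x, ‖f x‖ₑ ^ p)

end Pool.Agent.Y248.FD
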