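import Mathlib
import Pool.Agent.Y248.FD.Stm
import Pool.Agent.Y248.FC.L2
set_option autoImplicit false

/-! # Project FD: duality for general multipliers -/

namespace Pool.Agent.Y248.FD

open MeasureTheory Set Metric Complex Filter
open scoped ENNReal RealInnerProductSpace Topology FourierTransform
open Pool.Agent.H789R2.FR (E sg T)
open Pool.Agent.Y248.BA (gh gh_cont conv_eq four_eq four_bdd gh_planch)
open Pool.Agent.Y248.FB Pool.Agent.Y248.FC
open Pool.Agent.Y515.FB (gt gt_norm gt_meas absorb mul_pow_two sq_mul_pow ind_int)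

section

variable {n : ℕ} {q : E n → ℂ} (hq : Continuous q) (hqe : ∀ ξ, q (-ξ) = q ξ)
  (hq2 : ∀ ξ, 2 < ‖ξ‖ → q ξ = 0)

include hq hq2 in
theorem q_bdd : ∃ M : ℝ, 0 ≤ M ∧ ∀ ξ, ‖q ξ‖ ≤ (closedBall (0 : E n) 2).indicator (fun _ => M) ξ := by
  obtain ⟨M, hM⟩ := (isCompact_closedBall (0 : E n) 2).exists_bound_of_continuousOn
    hq.continuousOn
  refine ⟨max M 0, le_max_right _ _, fun ξ => ?_⟩
  by_cases h : ξ ∈ closedBall (0 : E n) 2
  · rw [indicator_of_mem h]; exact (hM ξ h).trans (le_max_left _ _)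
  · rw [indicator_of_notMem h]
    rw [mem_closedBall_zero_iff] at h
    push Not at h
    rw [hq2 ξ h, norm_zero]

include hq hq2 in
theorem q_int : Integrable q := by
  obtain ⟨M, hM, hb⟩ := q_bdd hq hq2
  exact (ind_int (n := n) M).mono' hq.aestronglyMeasurable (Eventually.of_forall hb)

/-- the integrand -/
noncomputable def Gq (q f : E n → ℂ) (z : E n × E n) : ℂ :=
  cexp (((-2 * Real.pi * ⟪z.2, z.1⟫ : ℝ) : ℂ) * I) * (q z.2 * gh f z.2)

include hq in
theorem Gq_meas {f : E n → ℂ} (hf : Integrable f) : Measurable (Gq q f) := by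
  unfold Gq
  have h1 : Continuous fun z : E n × E n => cexp (((-2 * Real.pi * ⟪z.2, z.1⟫ : ℝ) : ℂ) * I) := by
    fun_prop
  exact h1.measurable.mul ((hq.measurable.comp measurable_snd).mul
    ((gh_cont hf).measurable.comp measurable_snd))

include hq hq2 in
theorem Tq_eq {f : E n → ℂ} (hf : Integrable f) (x : E n) : Tq q f x = ∫ ξ, Gq q f (x, ξ) := by
  unfold Tq
  rw [conv_eq (q_int hq hq2) hf, four_eq]
  rfl

include hq hq2 in
theorem Tq_meas {f : E n → ℂ} (hf : Integrable f) : Measurable (Tq q f) := by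
  have e : Tq q f = fun x => ∫ ξ, Gq q f (x, ξ) := by
    funext x; exact Tq_eq hq hq2 hf x
  rw [e]
  exact ((Gq_meas hq hf).stronglyMeasurable.integral_prod_right'
    (ν := (volume : Measure (E n)))).measurable

include hq hq2 in
theorem Gq_bdd {f : E n → ℂ} : ∃ M : ℝ, 0 ≤ M ∧ ∀ z : E n × E n,
      ‖Gq q f z‖ ≤ (closedBall (0 : E n) 2).indicator (fun _ => M) z.2 := by
  obtain ⟨M, hM, hMb⟩ := q_bdd hq hq2
  have h0 : 0 ≤ ∫ x, ‖f x‖ := integral_nonneg fun x => norm_nonneg _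
  refine ⟨M * ∫ x, ‖f x‖, by positivity, fun z => ?_⟩
  unfold Gq
  rw [norm_mul, norm_mul, Complex.norm_exp_ofReal_mul_I, one_mul]
  have h2 := hMb z.2
  by_cases hz : z.2 ∈ closedBall (0 : E n) 2
  · rw [indicator_of_mem hz] at h2 ⊢
    have h1 : ‖gh f z.2‖ ≤ ∫ x, ‖f x‖ := four_bdd f _
    exact mul_le_mul h2 h1 (norm_nonneg _) hM
  · rw [indicator_of_notMem hz] at h2 ⊢
    have h3 : ‖q z.2‖ = 0 := le_antisymm h2 (norm_nonneg _)
    rw [h3, zero_mul]

include hq hq2 in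
theorem Tq_bdd {f : E n → ℂ} (hf : Integrable f) : ∃ M : ℝ, 0 ≤ M ∧ ∀ x, ‖Tq q f x‖ ≤ M := by
  obtain ⟨M, hM, hb⟩ := Gq_bdd (f := f) hq hq2
  refine ⟨∫ ξ : E n, (closedBall (0 : E n) 2).indicator (fun _ => M) ξ,
    integral_nonneg fun ξ => indicator_nonneg (fun _ _ => hM) _, fun x => ?_⟩
  rw [Tq_eq hq hq2 hf]
  exact norm_integral_le_of_norm_le (ind_int M) (Eventually.of_forall fun ξ => hb (x, ξ))

include hq hq2 hqe in
/-- duality -/
theorem pairq (ν : Measure (E n)) [IsFiniteMeasure ν] {f g : E n → ℂ} (hf : Integrable f)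
    (hg : Measurable g) {M : ℝ} (hgb : ∀ x, ‖g x‖ ≤ M) :
    ∫ x, Tq q f x * g x ∂ν = ∫ ξ, gh f ξ * (q (-ξ) * Fm g ν (-ξ)) := by
  obtain ⟨K, hK, hKb⟩ := Gq_bdd (f := f) hq hq2
  have hprod : Integrable (fun z : E n × E n => Gq q f z * g z.1)
      (ν.prod (volume : Measure (E n))) := by
    refine ((ind_int (n := n) (K * M)).comp_snd ν).mono' ?_ (Eventually.of_forall fun z => ?_)
    · exact ((Gq_meas hq hf).mul (hg.comp measurable_fst)).aestronglyMeasurable
    · rw [norm_mul]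
      have h1 := hKb z
      by_cases hz : z.2 ∈ closedBall (0 : E n) 2
      · rw [indicator_of_mem hz] at h1 ⊢
        exact mul_le_mul h1 (hgb _) (norm_nonneg _) hK
      · rw [indicator_of_notMem hz] at h1 ⊢
        have h2 : ‖Gq q f z‖ = 0 := le_antisymm h1 (norm_nonneg _)
        rw [h2, zero_mul]
  have e1 : ∀ x, Tq q f x * g x = ∫ ξ, Gq q f (x, ξ) * g x := by
    intro x
    rw [Tq_eq hq hq2 hf, integral_mul_const]
  simp only [e1]
  rw [integral_integral_swap hprod]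
  refine integral_congr_ae (Eventually.of_forall fun ξ => ?_)
  simp only [Fm]
  rw [← integral_const_mul, ← integral_const_mul]
  refine integral_congr_ae (Eventually.of_forall fun x => ?_)
  simp only [Gq]
  rw [hqe, inner_neg_right, real_inner_comm x ξ]
  have : ((-2 * Real.pi * ⟪x, ξ⟫ : ℝ) : ℂ) = ((2 * Real.pi * -⟪x, ξ⟫ : ℝ) : ℂ) := by
    push_cast; ring
  rw [this]
  ring

theorem Fm_meas (ν : Measure (E n)) [IsFiniteMeasure ν] {g : E n → ℂ} (hg : Measurable g) :
    Measurable (Fm g ν) := by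
  have h : Measurable fun z : E n × E n => g z.2 *
      cexp (((2 * Real.pi * ⟪z.2, z.1⟫ : ℝ) : ℂ) * I) := by
    have h1 : Continuous fun z : E n × E n => cexp (((2 * Real.pi * ⟪z.2, z.1⟫ : ℝ) : ℂ) * I) := by
      fun_prop
    exact (hg.comp measurable_snd).mul h1.measurable
  exact (h.stronglyMeasurable.integral_prod_right' (ν := ν)).measurable

include hq hq2 hqe in
/-- the pairing is controlled by the `L^2` norms -/
theorem pairq_le (ν : Measure (E n)) [IsFiniteMeasure ν] {f g : E n → ℂ} (hf : Integrable f)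
    (hf2 : MemLp f 2) (hg : Measurable g) {M : ℝ} (hgb : ∀ x, ‖g x‖ ≤ M) :
    ‖∫ x, Tq q f x * g x ∂ν‖ₑ ≤ (∫⁻ x, ‖f x‖ₑ ^ (2 : ℝ)) ^ (1 / 2 : ℝ) *
      (En q g ν) ^ (1 / 2 : ℝ) := by
  rw [pairq hq hqe hq2 ν hf hg hgb]
  refine (enorm_integral_le_lintegral_enorm _).trans ?_
  have hm : Measurable fun ξ => q ξ * Fm g ν ξ := hq.measurable.mul (Fm_meas ν hg)
  have h1 := ENNReal.lintegral_mul_le_Lp_mul_Lq (volume : Measure (E n))
    (p := 2) (q := 2) (by constructor <;> norm_num)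
    (f := fun ξ => ‖gh f ξ‖ₑ) (g := fun ξ => ‖q (-ξ) * Fm g ν (-ξ)‖ₑ)
    (gh_cont hf).measurable.enorm.aemeasurable (hm.comp measurable_neg).enorm.aemeasurable
  rw [gh_planch hf hf2] at h1
  have h2 : ∫⁻ ξ, ‖q (-ξ) * Fm g ν (-ξ)‖ₑ ^ (2 : ℝ) = En q g ν :=
    lintegral_neg_eq_self (fun ξ => ‖q ξ * Fm g ν ξ‖ₑ ^ (2 : ℝ))
  rw [h2] at h1
  refine le_trans (le_of_eq ?_) h1
  refine lintegral_congr fun ξ => ?_
  rw [enorm_mul]; rfl

end

theorem t_md (n : ℕ) : S_MD n := by
  intro q hq hqe hq2 μ hμ p c hp hc0 hE f hf hf2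
  have hp0 : 0 < p := by linarith
  have hp1 : 0 < p - 1 := by linarith
  have hU : (⋃ N : ℕ, closedBall (0 : E n) N) = univ := by
    ext x
    simp only [mem_iUnion, mem_closedBall_zero_iff, mem_univ, iff_true]
    exact exists_nat_ge ‖x‖
  have hmono : Monotone fun N : ℕ => closedBall (0 : E n) N := fun a b hab =>
    closedBall_subset_closedBall (by exact_mod_cast hab)
  rw [← setLIntegral_univ, ← hU, setLIntegral_iUnion_of_directed _
    (hmono.directed_le)]
  refine iSup_le fun L => ?_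
  set B := closedBall (0 : E n) L with hB
  have hBm : MeasurableSet B := isClosed_closedBall.measurableSet
  have : IsFiniteMeasure (μ.restrict B) := ⟨by rw [Measure.restrict_apply_univ]; exact hμ 0 L⟩
  obtain ⟨K, hK, hKb⟩ := Tq_bdd hq hq2 hf
  have hFm := Tq_meas hq hq2 hf
  set F := Tq q f with hF
  set g := gt F B p with hg
  have hgm : Measurable g := gt_meas hFm hBm p
  have hgb : ∀ x, ‖g x‖ ≤ K ^ (p - 1) := by
    intro x
    rw [hg, gt_norm F B hp]
    by_cases hx : x ∈ B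
    · rw [indicator_of_mem hx]
      exact Real.rpow_le_rpow (norm_nonneg _) (hKb x) hp1.le
    · rw [indicator_of_notMem hx]; positivity
  have hg0 : ∀ x, x ∉ B → g x = 0 := fun x hx => indicator_of_notMem hx _
  have h1 := hE g ⟨hgm, ⟨_, hgb⟩, L, hg0⟩
  have h2' : Fm g (μ.restrict B) = Fm g μ := by
    funext ξ
    unfold Fm
    exact setIntegral_eq_integral_of_forall_compl_eq_zero fun x hx => by rw [hg0 x hx]; ring
  have h2 : En q g (μ.restrict B) = En q g μ := by unfold En; rw [h2']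
  have h3 := pairq_le hq hqe hq2 (μ.restrict B) hf hf2 hgm hgb
  rw [h2] at h3
  set J : ℝ≥0∞ := ∫⁻ x in B, ‖F x‖ₑ ^ p ∂μ with hJ
  have hen : ∀ x, ENNReal.ofReal (‖F x‖ ^ p) = ‖F x‖ₑ ^ p := by
    intro x
    rw [← ofReal_norm, ENNReal.ofReal_rpow_of_nonneg (norm_nonneg _) hp0.le]
  have hFi : Integrable (fun x => ‖F x‖ ^ p) (μ.restrict B) := by
    refine Integrable.of_bound (C := K ^ p) (hFm.norm.pow_const _).aestronglyMeasurable
      (Eventually.of_forall fun x => ?_)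
    rw [Real.norm_of_nonneg (by positivity)]
    exact Real.rpow_le_rpow (norm_nonneg _) (hKb x) hp0.le
  have hJe : ENNReal.ofReal (∫ x in B, ‖F x‖ ^ p ∂μ) = J := by
    rw [ofReal_integral_eq_lintegral_ofReal hFi (Eventually.of_forall fun x => by positivity)]
    exact lintegral_congr fun x => hen x
  have hJf : J ≠ ∞ := by rw [← hJe]; exact ENNReal.ofReal_ne_top
  have h4 : ‖∫ x, F x * g x ∂(μ.restrict B)‖ₑ = J := by
    have e1 : ∫ x, F x * g x ∂(μ.restrict B) = ((∫ x in B, ‖F x‖ ^ p ∂μ : ℝ) : ℂ) := by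
      rw [← integral_complex_ofReal]
      refine setIntegral_congr_fun hBm fun x hx => ?_
      simp only [hg, gt]
      rw [indicator_of_mem hx, ← mul_assoc, Complex.mul_conj, Complex.normSq_eq_norm_sq,
        ← Complex.ofReal_mul, sq_mul_pow (norm_nonneg _) hp]
    rw [e1, ← hJe, ← ofReal_norm, Complex.norm_real, Real.norm_of_nonneg
      (integral_nonneg fun x => by positivity)]
  have h5 : ∫⁻ x, ‖g x‖ₑ ^ (p / (p - 1)) ∂μ = J := by
    rw [hJ, ← lintegral_indicator hBm]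
    refine lintegral_congr fun x => ?_
    rw [← ofReal_norm, hg, gt_norm F B hp]
    by_cases hx : x ∈ B
    · rw [indicator_of_mem hx, indicator_of_mem hx,
        ENNReal.ofReal_rpow_of_nonneg (by positivity) (by positivity),
        ← Real.rpow_mul (norm_nonneg _), mul_div_cancel₀ _ hp1.ne', hen]
    · rw [indicator_of_notMem hx, indicator_of_notMem hx, ENNReal.ofReal_zero,
        ENNReal.zero_rpow_of_pos (by positivity)]
  rw [h4] at h3
  rw [h5] at h1
  set N : ℝ≥0∞ := ∫⁻ x, ‖f x‖ₑ ^ (2 : ℝ) with hN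
  have h6 : J ≤ (N ^ (1 / 2 : ℝ) * ENNReal.ofReal c ^ (1 / 2 : ℝ)) * J ^ ((p - 1) / p) := by
    refine h3.trans ?_
    rw [mul_assoc]
    gcongr
    refine (ENNReal.rpow_le_rpow h1 (by norm_num)).trans (le_of_eq ?_)
    rw [ENNReal.mul_rpow_of_nonneg _ _ (by norm_num), ← ENNReal.rpow_mul]
    congr 2
    field_simp
  refine (absorb hJf (by linarith) h6).trans (le_of_eq ?_)
  rw [ENNReal.mul_rpow_of_nonneg _ _ hp0.le, ← ENNReal.rpow_mul, ← ENNReal.rpow_mul,
    ← ENNReal.ofReal_rpow_of_nonneg hc0 (by positivity), mul_comm]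
  congr 2 <;> ring

end Pool.Agent.Y248.FD
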