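import Mathlib
import Pool.Agent.Y248.FD.MD
import Pool.Agent.Y363.FC.SL
set_option autoImplicit false

/-! # Project FD: local estimates for `p ≥ 2` from the restricted estimates -/

namespace Pool.Agent.Y248.FD

open MeasureTheory Set Metric Complex Filter
open scoped ENNReal RealInnerProductSpace Topology FourierTransform
open Pool.Agent.H789R2.FR (E sg T)
open Pool.Agent.H438R2.RZ (Bump)
open Pool.Agent.Y248.BA (mu Kr Tp ball_vol loc_norm int_of_loc memLp_two mu_cont mu_far)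
open Pool.Agent.Y248.FB Pool.Agent.Y248.FC
open Pool.Agent.Y363.FC (ee ee_mp es es_mp es_norm es_le1 es_le2 cyl_eq es_cont es_fun)

theorem hd_cont (m : ℕ) : Continuous (hd m : E (m + 1) → E m) := by
  unfold hd
  exact continuous_fst.comp (EuclideanSpace.finAddEquivProd (𝕜 := ℝ) (n := m) (m := 1)).continuous

theorem pr_cont (m : ℕ) : Continuous (pr m : E (m + 1) → E 1) := by
  unfold pr
  exact continuous_snd.comp (EuclideanSpace.finAddEquivProd (𝕜 := ℝ) (n := m) (m := 1)).continuous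

theorem hd_neg (m : ℕ) (x : E (m + 1)) : hd m (-x) = -hd m x := by
  unfold hd
  rw [map_neg]; rfl

theorem pr_neg (m : ℕ) (x : E (m + 1)) : pr m (-x) = -pr m x := by
  unfold pr
  rw [map_neg]; rfl

theorem norm_split (m : ℕ) (x : E (m + 1)) : ‖x‖ ^ 2 = ‖hd m x‖ ^ 2 + ‖pr m x‖ ^ 2 := by
  have h := es_norm (m := m) (k := 1) (hd m x) (pr m x)
  have h2 : es m 1 (hd m x, pr m x) = x := by
    rw [es_fun]
    exact (ee m 1).symm_apply_apply x
  rw [h2] at h
  exact h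

theorem Box_meas (m : ℕ) (l : ℝ) (u : E (m + 1)) (ρ : ℝ) : MeasurableSet (Box m l u ρ) := by
  have h1 : Continuous fun x : E (m + 1) => ‖hd m x - hd m u‖ :=
    ((hd_cont m).sub continuous_const).norm
  have h2 : Continuous fun x : E (m + 1) => ‖pr m x - pr m u‖ :=
    ((pr_cont m).sub continuous_const).norm
  exact (measurableSet_le h1.measurable measurable_const).inter
    (measurableSet_le h2.measurable measurable_const)

theorem hd_sub (m : ℕ) (x y : E (m + 1)) : hd m (x - y) = hd m x - hd m y := by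
  unfold hd
  rw [map_sub]; rfl

theorem pr_sub (m : ℕ) (x y : E (m + 1)) : pr m (x - y) = pr m x - pr m y := by
  unfold pr
  rw [map_sub]; rfl

theorem Box_sub (m : ℕ) {l : ℝ} (hl : 0 < l) (hl1 : l ≤ 1) (u : E (m + 1)) {ρ : ℝ} (hρ : 0 ≤ ρ) :
    Box m l u ρ ⊆ closedBall u (2 * ρ) := by
  rintro x ⟨h1, h2⟩
  rw [mem_closedBall, dist_eq_norm]
  have h3 := norm_split m (x - u)
  rw [hd_sub, pr_sub] at h3
  have h4 : ‖pr m x - pr m u‖ ≤ ρ := h2.trans (by nlinarith)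
  have h5 : ‖x - u‖ ^ 2 ≤ (2 * ρ) ^ 2 := by
    rw [h3]
    nlinarith [norm_nonneg (hd m x - hd m u), norm_nonneg (pr m x - pr m u)]
  exact le_of_sq_le_sq h5 (by positivity)

theorem Box_vol (m : ℕ) : ∃ V : ℝ, 0 < V ∧ ∀ (l : ℝ), 0 < l → ∀ (u : E (m + 1)) (ρ : ℝ), 0 ≤ ρ →
    (volume : Measure (E (m + 1))) (Box m l u ρ) = ENNReal.ofReal (V * (l * ρ ^ (m + 1))) := by
  obtain ⟨V, hV, hVb⟩ := ball_vol m
  obtain ⟨W, hW, hWb⟩ := ball_vol 1
  refine ⟨V * W, by positivity, fun l hl u ρ hρ => ?_⟩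
  have e : Box m l u ρ = (ee m 1) ⁻¹' (closedBall (hd m u) ρ ×ˢ closedBall (pr m u) (l * ρ)) := by
    ext x
    simp only [Box, mem_setOf_eq, mem_preimage, mem_prod, mem_closedBall, dist_eq_norm]
    rfl
  rw [e, (ee_mp (m := m) (k := 1)).measure_preimage
    (isClosed_closedBall.measurableSet.prod isClosed_closedBall.measurableSet).nullMeasurableSet,
    Measure.volume_eq_prod, Measure.prod_prod, hVb _ _ hρ, hWb _ _ (by positivity),
    ← ENNReal.ofReal_mul (by positivity)]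
  congr 1
  ring

/-- Hölder on boxes -/
theorem box_two (m : ℕ) (p : ℝ) (hp : 2 ≤ p) : ∃ V : ℝ, 0 < V ∧ ∀ (l : ℝ), 0 < l → l ≤ 1 →
    ∀ (u : E (m + 1)) (ρ : ℝ), 1 ≤ ρ → ∀ f : E (m + 1) → ℂ, Measurable f →
    (∀ x, x ∉ Box m l u (2 * ρ) → f x = 0) → ∫⁻ x, ‖f x‖ₑ ^ p ≠ ∞ → Integrable f ∧ MemLp f 2 ∧
      (∫⁻ x, ‖f x‖ₑ ^ (2 : ℝ)) ^ (p / 2) ≤
        ENNReal.ofReal (V * (l * ρ ^ (m + 1)) ^ (p / 2 - 1)) * ∫⁻ x, ‖f x‖ₑ ^ p := by
  obtain ⟨V, hV, hVb⟩ := Box_vol m
  refine ⟨(V * 2 ^ (m + 1)) ^ (p / 2 - 1), by positivity, fun l hl hl1 u ρ hρ f hfm hfs hfp => ?_⟩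
  have hp0 : 0 < p := by linarith
  have hρ0 : 0 < ρ := by linarith
  have hfi := int_of_loc (u := u) (r := 2 * (2 * ρ)) hfm (fun x hx => hfs x fun h =>
    hx (Box_sub m hl hl1 u (by positivity) h)) p (by linarith) hfp
  have hl2 := loc_norm hfm (Box_meas m l u (2 * ρ)) hfs 2 p two_pos hp
  rw [hVb l hl u (2 * ρ) (by positivity)] at hl2
  have h2p : 0 ≤ 1 - 2 / p := by
    rw [sub_nonneg, div_le_one hp0]; exact hp
  have hl2f : ∫⁻ x, ‖f x‖ₑ ^ (2 : ℝ) ≠ ∞ := by
    refine (hl2.trans_lt ?_).ne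
    exact ENNReal.mul_lt_top (ENNReal.rpow_lt_top_of_nonneg h2p ENNReal.ofReal_ne_top)
      (ENNReal.rpow_lt_top_of_nonneg (by positivity) hfp)
  refine ⟨hfi, memLp_two hfm hl2f, ?_⟩
  refine (ENNReal.rpow_le_rpow hl2 (show 0 ≤ p / 2 by positivity)).trans (le_of_eq ?_)
  rw [ENNReal.mul_rpow_of_nonneg _ _ (by positivity), ← ENNReal.rpow_mul, ← ENNReal.rpow_mul,
    show 2 / p * (p / 2) = 1 by field_simp, ENNReal.rpow_one,
    show (1 - 2 / p) * (p / 2) = p / 2 - 1 by field_simp,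
    ENNReal.ofReal_rpow_of_nonneg (by positivity) (by linarith)]
  congr 2
  rw [← Real.mul_rpow (by positivity) (by positivity)]
  congr 1
  rw [mul_pow]
  ring

theorem log_sq_le {A ε : ℝ} (hA : 4 ≤ A) (hε : 0 < ε) :
    (Real.log (A ^ 2)) ^ 2 ≤ 16 / ε ^ 2 * A ^ ε := by
  have hA0 : 0 < A := by linarith
  have h1 : 0 ≤ Real.log A := Real.log_nonneg (by linarith)
  have h2 := Real.log_le_rpow_div hA0.le (show 0 < ε / 2 by positivity)
  have h3 : (Real.log A) ^ 2 ≤ (A ^ (ε / 2) / (ε / 2)) ^ 2 := by gcongr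
  have h4 : (A ^ (ε / 2)) ^ 2 = A ^ ε := by
    rw [← Real.rpow_natCast, ← Real.rpow_mul hA0.le]; congr 1; push_cast; ring
  rw [Real.log_pow]
  push_cast
  calc (2 * Real.log A) ^ 2 = 4 * (Real.log A) ^ 2 := by ring
    _ ≤ 4 * (A ^ (ε / 2) / (ε / 2)) ^ 2 := by linarith
    _ = 16 / ε ^ 2 * (A ^ (ε / 2)) ^ 2 := by field_simp; ring
    _ = _ := by rw [h4]

/-- energies by interpolation of the restricted estimate and the `L²` estimate -/
theorem nb_core (m : ℕ) (hLS : S_LS (m + 1)) (p ε : ℝ) (hp : 2 ≤ p)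
    (hp2 : ((m : ℝ) + 1) * (1 - 2 / p) ≤ 1) (hε : 0 < ε) (C₃ : ℝ) (hC₃ : 0 < C₃) :
    ∃ C : ℝ, 0 < C ∧ ∀ μ : Measure (E (m + 1)),
    (∀ (x : E (m + 1)) (ρ : ℝ), μ (closedBall x ρ) < ∞) →
    ∀ q : E (m + 1) → ℂ, Continuous q → (∀ ξ, q (-ξ) = q ξ) → (∀ ξ, 2 < ‖ξ‖ → q ξ = 0) →
    ∀ A x y z : ℝ, 4 ≤ A → 1 / A ≤ x → 1 / A ≤ y → y ≤ 1 → z ≤ 1 / A →
    (∀ g : E (m + 1) → ℂ, BB g → ∀ S : Set (E (m + 1)), MeasurableSet S → μ S ≠ ∞ →
      (∀ x, ‖g x‖ ≤ 1) → (∀ x, x ∉ S → g x = 0) →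
      En q g μ ≤ ENNReal.ofReal (C₃ * x) * (μ S) ^ (1 + 1 / ((m : ℝ) + 1))) →
    (∀ g : E (m + 1) → ℂ, BB g →
      En q g μ ≤ ENNReal.ofReal (C₃ * z) * (∫⁻ x, ‖g x‖ₑ ∂μ) ^ (2 : ℝ)) →
    (∀ g : E (m + 1) → ℂ, BB g →
      En q g μ ≤ ENNReal.ofReal (C₃ * y) * ∫⁻ x, ‖g x‖ₑ ^ (2 : ℝ) ∂μ) →
    ∀ f : E (m + 1) → ℂ, Integrable f → MemLp f 2 →
      ∫⁻ w, ‖Tq q f w‖ₑ ^ p ∂μ ≤ ENNReal.ofReal (C * (A ^ ε * (x ^ (((m : ℝ) + 1) * (1 - 2 / p)) *
        y ^ (1 - ((m : ℝ) + 1) * (1 - 2 / p)))) ^ (p / 2)) *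
          (∫⁻ w, ‖f w‖ₑ ^ (2 : ℝ)) ^ (p / 2) := by
  have hp0 : 0 < p := by linarith
  have hm0 : 0 < (m : ℝ) + 1 := by positivity
  set t : ℝ := ((m : ℝ) + 1) * (1 - 2 / p) with ht
  have h2p : 0 ≤ 1 - 2 / p := by
    rw [sub_nonneg, div_le_one hp0]; exact hp
  have ht0 : 0 ≤ t := by positivity
  rcases hp.eq_or_lt with hp2' | hp2'
  · -- `p = 2`
    have ht00 : t = 0 := by rw [ht, ← hp2']; norm_num
    refine ⟨C₃ ^ (p / 2), by positivity, fun μ hμ q hq hqe hq2 A x y z hA hx hy hy1 hz hR ha hb f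
      hf hf2 => ?_⟩
    have hA0 : 0 < A := by linarith
    have hy0 : 0 < y := lt_of_lt_of_le (by positivity) hy
    have hx0 : 0 < x := lt_of_lt_of_le (by positivity) hx
    refine (t_md (m + 1) q hq hqe hq2 μ hμ p (C₃ * y) hp (by positivity) (fun g hg => ?_) f hf
      hf2).trans ?_
    · refine (hb g hg).trans (le_of_eq ?_)
      rw [← hp2']
      norm_num
    · refine mul_le_mul' (ENNReal.ofReal_le_ofReal ?_) le_rfl
      rw [ht00, Real.rpow_zero, one_mul, sub_zero, Real.rpow_one,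
        Real.mul_rpow hC₃.le hy0.le]
      refine mul_le_mul_of_nonneg_left ?_ (by positivity)
      refine Real.rpow_le_rpow hy0.le ?_ (by positivity)
      have : 1 ≤ A ^ ε := Real.one_le_rpow (by linarith) hε.le
      nlinarith
  · -- `p > 2`
    have hp1 : 0 < p - 1 := by linarith
    set r : ℝ := p / (p - 1) with hr
    have hr1 : 1 < r := by rw [hr, lt_div_iff₀ hp1]; linarith
    have hr2 : r < 2 := by rw [hr, div_lt_iff₀ hp1]; linarith
    have h2r : 2 / r = 2 * (p - 1) / p := by rw [hr]; field_simp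
    obtain ⟨C, hC, hb⟩ := hLS r hr1 hr2
    refine ⟨(C * C₃ * (16 / ε ^ 2)) ^ (p / 2), by positivity,
      fun μ hμ q hq hqe hq2 A x y z hA hx hy hy1 hz hR ha hbb f hf hf2 => ?_⟩
    have hA0 : 0 < A := by linarith
    have hy0 : 0 < y := lt_of_lt_of_le (by positivity) hy
    have hx0 : 0 < x := lt_of_lt_of_le (by positivity) hx
    set w : ℝ := x ^ t * y ^ (1 - t) with hw
    have hw0 : 0 < w := by positivity
    have h1t : 0 ≤ 1 - t := by linarith
    have hwA : 1 / A ≤ w := by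
      calc 1 / A = (1 / A) ^ t * (1 / A) ^ (1 - t) := by
            rw [← Real.rpow_add (by positivity)]
            norm_num
        _ ≤ w := mul_le_mul (Real.rpow_le_rpow (by positivity) hx ht0)
            (Real.rpow_le_rpow (by positivity) hy h1t) (by positivity) (by positivity)
    have key := hb μ hμ q hq hq2 (C₃ * w) (A ^ 2) (by positivity) (by nlinarith)
      (fun g hg S hS hSf hg1 hg0 => ?_) (fun g hg => ?_) (fun g hg => ?_)
    · refine (t_md (m + 1) q hq hqe hq2 μ hμ p (C * (C₃ * w) * Real.log (A ^ 2) ^ 2) hp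
        (by positivity) (fun g hg => ?_) f hf hf2).trans ?_
      · rw [← h2r]
        exact key g hg
      · refine mul_le_mul' (ENNReal.ofReal_le_ofReal ?_) le_rfl
        rw [← Real.mul_rpow (by positivity) (by positivity)]
        refine Real.rpow_le_rpow (by positivity) ?_ (by positivity)
        calc C * (C₃ * w) * Real.log (A ^ 2) ^ 2 ≤ C * (C₃ * w) * (16 / ε ^ 2 * A ^ ε) := by
              refine mul_le_mul_of_nonneg_left (log_sq_le hA hε) (by positivity)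
          _ = _ := by ring
    · -- the restricted estimate
      have e1 := hR g hg S hS hSf hg1 hg0
      have e2 : En q g μ ≤ ENNReal.ofReal (C₃ * y) * μ S := by
        refine (hbb g hg).trans (mul_le_mul' le_rfl ?_)
        calc ∫⁻ x, ‖g x‖ₑ ^ (2 : ℝ) ∂μ ≤ ∫⁻ x, S.indicator 1 x ∂μ := by
              refine lintegral_mono fun x => ?_
              by_cases hx : x ∈ S
              · rw [indicator_of_mem hx, Pi.one_apply]
                refine ENNReal.rpow_le_one ?_ (by norm_num)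
                rw [← ofReal_norm, ENNReal.ofReal_le_one]
                exact hg1 x
              · rw [indicator_of_notMem hx, hg0 x hx, enorm_zero,
                  ENNReal.zero_rpow_of_pos (by norm_num)]
          _ = μ S := lintegral_indicator_one hS
      calc En q g μ = En q g μ ^ t * En q g μ ^ (1 - t) := by
            rw [← ENNReal.rpow_add_of_nonneg _ _ ht0 h1t]
            norm_num
        _ ≤ (ENNReal.ofReal (C₃ * x) * (μ S) ^ (1 + 1 / ((m : ℝ) + 1))) ^ t *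
            (ENNReal.ofReal (C₃ * y) * μ S) ^ (1 - t) :=
          mul_le_mul' (ENNReal.rpow_le_rpow e1 ht0) (ENNReal.rpow_le_rpow e2 h1t)
        _ = (ENNReal.ofReal (C₃ * x) ^ t * ENNReal.ofReal (C₃ * y) ^ (1 - t)) *
            ((μ S) ^ ((1 + 1 / ((m : ℝ) + 1)) * t) * (μ S) ^ (1 - t)) := by
          rw [ENNReal.mul_rpow_of_nonneg _ _ ht0, ENNReal.mul_rpow_of_nonneg _ _ h1t,
            ← ENNReal.rpow_mul]
          ring
        _ = _ := by
          rw [ENNReal.ofReal_rpow_of_nonneg (by positivity) ht0,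
            ENNReal.ofReal_rpow_of_nonneg (by positivity) h1t, ← ENNReal.ofReal_mul (by positivity),
            ← ENNReal.rpow_add_of_nonneg _ _ (by positivity) h1t]
          congr 2
          · rw [Real.mul_rpow hC₃.le hx0.le, Real.mul_rpow hC₃.le hy0.le, hw]
            calc C₃ ^ t * x ^ t * (C₃ ^ (1 - t) * y ^ (1 - t)) =
                (C₃ ^ t * C₃ ^ (1 - t)) * (x ^ t * y ^ (1 - t)) := by ring
              _ = _ := by
                rw [← Real.rpow_add hC₃]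
                norm_num
          · rw [h2r, ht]
            field_simp
            ring
    · refine (ha g hg).trans (mul_le_mul' (ENNReal.ofReal_le_ofReal ?_) le_rfl)
      exact mul_le_mul_of_nonneg_left (hz.trans hwA) hC₃.le
    · refine (hbb g hg).trans (mul_le_mul' (ENNReal.ofReal_le_ofReal ?_) le_rfl)
      rw [mul_assoc]
      refine mul_le_mul_of_nonneg_left ?_ hC₃.le
      calc y ≤ 1 := hy1
        _ ≤ (1 / A) * A ^ 2 := by
          rw [show (1 / A) * A ^ 2 = A by field_simp]; linarith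
        _ ≤ w * A ^ 2 := by gcongr

end Pool.Agent.Y248.FD
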