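import Mathlib
import Pool.Agent.Y248.FD.NB
import Pool.Agent.Y79.FC.CY
set_option autoImplicit false

/-! # Project FD: local estimates for `p ≥ 2`, conclusion -/

namespace Pool.Agent.Y248.FD

open MeasureTheory Set Metric Complex Filter
open scoped ENNReal RealInnerProductSpace Topology FourierTransform
open Pool.Agent.H789R2.FR (E sg T)
open Pool.Agent.H438R2.RZ (Bump)
open Pool.Agent.Y248.BA (mu Kr Tp ball_vol loc_norm int_of_loc memLp_two mu_cont mu_far)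
open Pool.Agent.Y248.FB Pool.Agent.Y248.FC

theorem cyl_ball (m : ℕ) {β K₀ : ℝ} (hβ0 : 0 ≤ β) (hβ1 : β ≤ 1) (hK : 0 ≤ K₀) {ν : Measure (E 1)}
    (hν : LD β K₀ ν) (x : E (m + 1)) (ρ : ℝ) : cyl m ν (closedBall x ρ) < ∞ := by
  obtain ⟨⟨D, hD, hDim⟩, -⟩ := Pool.Agent.Y79.FC.t_cy m 1
  refine (measure_mono (closedBall_subset_closedBall (le_max_left ρ 1))).trans_lt ?_
  exact (hDim β K₀ hβ0 (by exact_mod_cast hβ1) hK ν hν x _ (le_max_right ρ 1)).trans_lt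
    ENNReal.ofReal_lt_top

theorem pm_cont (m : ℕ) {ψ θ : ℝ → ℝ} (hψ : Bump ψ) (hθ : Cut θ) (A l : ℝ) :
    Continuous (pm m ψ θ A l) := by
  unfold pm
  have h1 := mu_cont (n := m + 1) hψ A 1
  have h2 := pr_cont m
  have h3 : Continuous θ := hθ.1.continuous
  have h4 : Continuous fun ξ : E (m + 1) => θ (‖pr m ξ‖ ^ 2 / l ^ 2) :=
    h3.comp ((h2.norm.pow 2).div_const _)
  exact h1.mul (Complex.continuous_ofReal.comp h4)

theorem hi_cont (m : ℕ) {ψ θ : ℝ → ℝ} (hψ : Bump ψ) (hθ : Cut θ) (A : ℝ) :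
    Continuous (hi m ψ θ A) := by
  unfold hi
  have h1 := mu_cont (n := m + 1) hψ A 1
  have h2 := pr_cont m
  have h3 : Continuous θ := hθ.1.continuous
  have h4 : Continuous fun ξ : E (m + 1) => 1 - θ (64 * ‖pr m ξ‖ ^ 2) :=
    continuous_const.sub (h3.comp ((h2.norm.pow 2).const_mul _))
  exact h1.mul (Complex.continuous_ofReal.comp h4)

theorem mu_even {n : ℕ} (ψ : ℝ → ℝ) (A R : ℝ) (ξ : E n) : mu ψ A R (-ξ) = mu ψ A R ξ := by
  unfold mu; rw [norm_neg]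

theorem pm_even (m : ℕ) (ψ θ : ℝ → ℝ) (A l : ℝ) (ξ : E (m + 1)) :
    pm m ψ θ A l (-ξ) = pm m ψ θ A l ξ := by
  unfold pm; rw [mu_even, pr_neg, norm_neg]

theorem hi_even (m : ℕ) (ψ θ : ℝ → ℝ) (A : ℝ) (ξ : E (m + 1)) :
    hi m ψ θ A (-ξ) = hi m ψ θ A ξ := by
  unfold hi; rw [mu_even, pr_neg, norm_neg]

theorem pm_far (m : ℕ) {ψ : ℝ → ℝ} (hψ : Bump ψ) (θ : ℝ → ℝ) {A : ℝ} (hA : 0 < A) (l : ℝ)
    (ξ : E (m + 1)) (h : 2 < ‖ξ‖) : pm m ψ θ A l ξ = 0 := by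
  unfold pm; rw [mu_far hψ hA one_pos ξ (by linarith), zero_mul]

theorem hi_far (m : ℕ) {ψ : ℝ → ℝ} (hψ : Bump ψ) (θ : ℝ → ℝ) {A : ℝ} (hA : 0 < A)
    (ξ : E (m + 1)) (h : 2 < ‖ξ‖) : hi m ψ θ A ξ = 0 := by
  unfold hi; rw [mu_far hψ hA one_pos ξ (by linarith), zero_mul]

theorem x_pow (m : ℕ) {X : ℝ} (hX : 0 < X) (p : ℝ) :
    (X ^ (-1 / ((m : ℝ) + 1))) ^ (((m : ℝ) + 1) * (1 - 2 / p)) = X ^ (-(1 - 2 / p)) := by
  rw [← Real.rpow_mul hX.le]
  congr 1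
  have : (m : ℝ) + 1 ≠ 0 := by positivity
  field_simp

theorem x_low (m : ℕ) {A X : ℝ} (hA : 0 < A) (hX : 0 < X) (h : X ≤ A ^ (m + 1)) :
    1 / A ≤ X ^ (-1 / ((m : ℝ) + 1)) := by
  have h1 : (A ^ (m + 1)) ^ (-1 / ((m : ℝ) + 1)) ≤ X ^ (-1 / ((m : ℝ) + 1)) := by
    refine Real.rpow_le_rpow_of_nonpos hX h ?_
    rw [neg_div]
    have : 0 < 1 / ((m : ℝ) + 1) := by positivity
    linarith
  refine le_trans (le_of_eq ?_) h1
  rw [← Real.rpow_natCast, ← Real.rpow_mul hA.le]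
  have : (((m + 1 : ℕ) : ℝ)) * (-1 / ((m : ℝ) + 1)) = -1 := by
    push_cast
    field_simp
  rw [this, Real.rpow_neg_one, one_div]

theorem x_eq (m : ℕ) {A : ℝ} (hA : 0 < A) : (A ^ (m + 1)) ^ (-1 / ((m : ℝ) + 1)) = 1 / A := by
  rw [← Real.rpow_natCast, ← Real.rpow_mul hA.le]
  have : (((m + 1 : ℕ) : ℝ)) * (-1 / ((m : ℝ) + 1)) = -1 := by
    push_cast
    field_simp
  rw [this, Real.rpow_neg_one, one_div]

theorem t_nb (m : ℕ) (hm : 2 ≤ m) (hRT : S_RT m) (hLS : S_LS (m + 1)) (hBS : S_BS m) :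
    S_NB m := by
  intro ψ θ hψ hθ β K₀ p ε hβ0 hβ hK hp hp2 hε
  have hm2 : (2 : ℝ) ≤ m := by exact_mod_cast hm
  have hβ1 : β ≤ 1 / 2 := by
    refine hβ.trans ?_
    gcongr
  obtain ⟨C₁, hC₁, h1⟩ := hRT ψ θ hψ hθ β K₀ hβ0 hβ hK
  obtain ⟨C₂, hC₂, h2⟩ := hBS ψ θ hψ hθ β K₀ hβ0 (by linarith) hK
  set C₃ : ℝ := C₁ + C₂ with hC₃
  have hC₃0 : 0 < C₃ := by positivity
  have hC13 : C₁ ≤ C₃ := by linarith
  have hC23 : C₂ ≤ C₃ := by linarith
  obtain ⟨C, hC, hb⟩ := nb_core m hLS p ε hp hp2 hε C₃ hC₃0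
  obtain ⟨V, hV, hVb⟩ := box_two m p hp
  refine ⟨C * V, by positivity, fun ν hν => ⟨fun A l hAdm u ρ hρ f hfm hfs hfp => ?_,
    fun hθ1 A hA u ρ hρ f hfm hfs hfp => ?_⟩⟩
  · have hAdm' := hAdm
    obtain ⟨hA, hl, hl8, hAl, -⟩ := hAdm
    obtain ⟨hfi, hf2, hfV⟩ := hVb l hl (by linarith) u ρ hρ f hfm hfs hfp
    have hA0 : 0 < A := by linarith
    have hAl1 : 1 ≤ A * l := by nlinarith
    have hX : 0 < A ^ (m + 1) * l := by positivity
    have key := hb (cyl m ν) (cyl_ball m hβ0 (by linarith) hK hν) (pm m ψ θ A l)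
      (pm_cont m hψ hθ A l) (pm_even m ψ θ A l) (pm_far m hψ θ hA0 l) A
      ((A ^ (m + 1) * l) ^ (-1 / ((m : ℝ) + 1))) ((A * l) ^ (-(1 - β))) (l / A) hA
      (x_low m hA0 hX (by
        have : 0 < A ^ (m + 1) := by positivity
        nlinarith)) ?_ ?_ ?_ ?_ ?_ ?_ f hfi hf2
    · rw [x_pow m hX p] at key
      refine key.trans ((mul_le_mul' le_rfl hfV).trans (le_of_eq ?_))
      rw [← mul_assoc, ← ENNReal.ofReal_mul (by positivity)]
      congr 2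
      ring
    · -- `1 / A ≤ y`
      calc 1 / A ≤ 1 / (A * l) := by
            apply one_div_le_one_div_of_le (by positivity); nlinarith
        _ = (A * l) ^ (-1 : ℝ) := by rw [Real.rpow_neg_one, one_div]
        _ ≤ (A * l) ^ (-(1 - β)) := Real.rpow_le_rpow_of_exponent_le hAl1 (by linarith)
    · exact Real.rpow_le_one_of_one_le_of_nonpos hAl1 (by linarith)
    · gcongr
      linarith
    · intro g hg S hS hSf hg1 hg0
      refine ((h1 ν hν g hg S hS hSf hg1 hg0).1 A l hAdm').trans ?_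
      gcongr
    · intro g hg
      refine (((h2 ν hν).1 A l hAdm' g hg).1).trans ?_
      gcongr
    · intro g hg
      refine (((h2 ν hν).1 A l hAdm' g hg).2).trans ?_
      gcongr
  · obtain ⟨hfi, hf2, hfV⟩ := hVb 1 one_pos le_rfl u ρ hρ f hfm hfs hfp
    rw [one_mul] at hfV
    have hA0 : 0 < A := by linarith
    have hX : 0 < A ^ (m + 1) := by positivity
    have key := hb (cyl m ν) (cyl_ball m hβ0 (by linarith) hK hν) (hi m ψ θ A)
      (hi_cont m hψ hθ A) (hi_even m ψ θ A) (hi_far m hψ θ hA0) A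
      ((A ^ (m + 1)) ^ (-1 / ((m : ℝ) + 1))) (A ^ (-(1 - β))) (1 / A) hA
      (x_low m hA0 hX le_rfl) ?_ ?_ le_rfl ?_ ?_ ?_ f hfi hf2
    · rw [x_pow m hX p] at key
      refine key.trans ((mul_le_mul' le_rfl hfV).trans (le_of_eq ?_))
      rw [← mul_assoc, ← ENNReal.ofReal_mul (by positivity)]
      congr 2
      ring
    · calc 1 / A = A ^ (-1 : ℝ) := by rw [Real.rpow_neg_one, one_div]
        _ ≤ A ^ (-(1 - β)) := Real.rpow_le_rpow_of_exponent_le (by linarith) (by linarith)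
    · exact Real.rpow_le_one_of_one_le_of_nonpos (by linarith) (by linarith)
    · intro g hg S hS hSf hg1 hg0
      refine ((h1 ν hν g hg S hS hSf hg1 hg0).2 hθ1 A hA).trans ?_
      rw [x_eq m hA0, mul_one_div]
      gcongr
    · intro g hg
      refine (((h2 ν hν).2 hθ1 A hA g hg).1).trans ?_
      rw [mul_one_div]
      gcongr
    · intro g hg
      refine (((h2 ν hν).2 hθ1 A hA g hg).2).trans ?_
      gcongr

end Pool.Agent.Y248.FD
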