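import Mathlib
import Pool.Agent.Y248.FD.NB2
import Pool.Agent.Y71.FB.GlobB
import Pool.Agent.Y248.FC.Fin
set_option autoImplicit false

/-! # Project FD: assembly of the pieces -/

namespace Pool.Agent.Y248.FD

open MeasureTheory Set Metric Complex Filter
open scoped ENNReal RealInnerProductSpace Topology FourierTransform
open Pool.Agent.H789R2.FR (E sg T)
open Pool.Agent.H438R2.RZ (Bump)
open Pool.Agent.Y248.BA (mu Kr Tp mu_cont mu_far mu_int Kr_dec Kr_crude Jw Jw_pos mu_smooth)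
open Pool.Agent.Y248.FB Pool.Agent.Y248.FC
open Pool.Agent.Y71.FB (sigmaFinite schur Jw_lint)

/-- the crude bound for `A ≤ 64` -/
theorem cr64 (n : ℕ) {ψ : ℝ → ℝ} (hψ : Bump ψ) (α p : ℝ) (hα : α ≤ n) (hp : 1 ≤ p) :
    ∃ C : ℝ, 0 < C ∧ ∀ μ : Measure (E n), Dim α μ → ∀ A : ℝ, 1 ≤ A → A ≤ 64 →
    ∀ f : E n → ℂ, Measurable f →
      ∫⁻ x, ‖Tp ψ A 1 f x‖ₑ ^ p ∂μ ≤ ENNReal.ofReal C * ∫⁻ x, ‖f x‖ₑ ^ p := by
  have hp0 : 0 < p := by linarith
  obtain ⟨C0, hC0, hb⟩ := Kr_crude n hψ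
  obtain ⟨CJ, hCJ, hJ⟩ := Jw_lint n
  refine ⟨(C0 * 64 ^ (n + 1)) ^ p * (CJ ^ (p - 1) * 2 ^ (n + 1)), by positivity,
    fun μ hμ A hA hA4 f hf => ?_⟩
  have hsf := sigmaFinite hμ
  have hA0 : 0 < A := by linarith
  set c : ℝ≥0∞ := ENNReal.ofReal (C0 * 64 ^ (n + 1)) with hc
  have hct : c ^ p ≠ ∞ := ENNReal.rpow_ne_top_of_nonneg hp0.le ENNReal.ofReal_ne_top
  have h1 : ∀ x, ‖Tp ψ A 1 f x‖ₑ ≤ c * ∫⁻ y, ENNReal.ofReal (Jw (x - y)) * ‖f y‖ₑ := by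
    intro x
    rw [← lintegral_const_mul' _ _ ENNReal.ofReal_ne_top]
    unfold Tp
    refine (enorm_integral_le_lintegral_enorm _).trans (lintegral_mono fun y => ?_)
    rw [enorm_mul, ← mul_assoc]
    refine mul_le_mul' ?_ le_rfl
    rw [← ofReal_norm, ← ENNReal.ofReal_mul (by positivity)]
    refine ENNReal.ofReal_le_ofReal ((hb A 1 hA le_rfl (by norm_num) (x - y)).trans ?_)
    have := Jw_pos (x - y)
    gcongr
  calc ∫⁻ x, ‖Tp ψ A 1 f x‖ₑ ^ p ∂μ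
      ≤ ∫⁻ x, c ^ p * (∫⁻ y, ENNReal.ofReal (Jw (x - y)) * ‖f y‖ₑ) ^ p ∂μ := by
        refine lintegral_mono fun x => ?_
        rw [← ENNReal.mul_rpow_of_nonneg _ _ hp0.le]
        exact ENNReal.rpow_le_rpow (h1 x) hp0.le
    _ = c ^ p * ∫⁻ x, (∫⁻ y, ENNReal.ofReal (Jw (x - y)) * ‖f y‖ₑ) ^ p ∂μ :=
        lintegral_const_mul' _ _ hct
    _ ≤ c ^ p * ((∫⁻ x : E n, ENNReal.ofReal (Jw x)) ^ (p - 1) * ENNReal.ofReal (2 ^ (n + 1)) *
        ∫⁻ y, ‖f y‖ₑ ^ p) := by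
        gcongr
        exact schur hα hμ _ hf.enorm p hp
    _ = _ := by
        rw [hJ, hc, ENNReal.ofReal_rpow_of_nonneg (by positivity) hp0.le,
          ENNReal.ofReal_rpow_of_pos hCJ, ← ENNReal.ofReal_mul (by positivity), ← mul_assoc,
          ← ENNReal.ofReal_mul (by positivity)]

/-- the cutoff -/
noncomputable def th0 (s : ℝ) : ℝ := Real.smoothTransition (2 - s)

theorem th0_cut : Cut th0 := by
  refine ⟨Real.smoothTransition.contDiff.comp (contDiff_const.sub contDiff_id), fun s hs => ?_⟩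
  exact Real.smoothTransition.zero_of_nonpos (by linarith)

theorem th0_one (s : ℝ) (hs : s ≤ 1) : th0 s = 1 :=
  Real.smoothTransition.one_of_one_le (by linarith)

/-- the annular cutoff -/
noncomputable def tha (s : ℝ) : ℝ := th0 s - th0 (4 * s)

theorem tha_cut : Cut tha := by
  refine ⟨th0_cut.1.sub (th0_cut.1.comp (contDiff_const.mul contDiff_id)), fun s hs => ?_⟩
  unfold tha
  rw [th0_cut.2 s hs, th0_cut.2 (4 * s) (by linarith), sub_zero]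

theorem tha_zero (s : ℝ) (hs : s < 1 / 4) : tha s = 0 := by
  unfold tha
  rw [th0_one s (by linarith), th0_one (4 * s) (by linarith), sub_self]

/-- the decomposition of the multiplier -/
theorem tele (m : ℕ) (ψ : ℝ → ℝ) (A : ℝ) (J : ℕ) (hJ : 3 ≤ J) (ξ : E (m + 1)) :
    mu ψ A 1 ξ = hi m ψ th0 A ξ + (∑ j ∈ Finset.Ico 3 J, pm m ψ tha A ((2 : ℝ) ^ (-(j : ℝ))) ξ) +
      pm m ψ th0 A ((2 : ℝ) ^ (-(J : ℝ))) ξ := by
  set x : ℝ := ‖pr m ξ‖ ^ 2 with hx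
  have e1 : ∀ j : ℕ, x / ((2 : ℝ) ^ (-(j : ℝ))) ^ 2 = 4 ^ j * x := by
    intro j
    rw [Real.rpow_neg (by norm_num), Real.rpow_natCast, inv_pow, div_inv_eq_mul, ← pow_mul,
      mul_comm j 2, pow_mul]
    norm_num
    ring
  have e2 : ∑ j ∈ Finset.Ico 3 J, pm m ψ tha A ((2 : ℝ) ^ (-(j : ℝ))) ξ =
      mu ψ A 1 ξ * ((th0 (4 ^ 3 * x) - th0 (4 ^ J * x) : ℝ) : ℂ) := by
    unfold pm
    rw [← Finset.mul_sum, ← Complex.ofReal_sum]
    congr 2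
    rw [← hx]
    have h3 : ∀ j : ℕ, tha (x / ((2 : ℝ) ^ (-(j : ℝ))) ^ 2) =
        th0 (4 ^ j * x) - th0 (4 ^ (j + 1) * x) := by
      intro j
      rw [e1, tha]
      congr 2
      rw [pow_succ]; ring
    simp only [h3]
    induction J, hJ using Nat.le_induction with
    | base => simp
    | succ J hJ ih =>
      rw [Finset.sum_Ico_succ_top hJ, ih]; ring
  rw [e2]
  unfold pm hi
  rw [← hx, e1]
  push_cast
  rw [show (4 : ℝ) ^ 3 = 64 by norm_num]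
  ring

end Pool.Agent.Y248.FD
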