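import Mathlib
import Pool.Agent.Y248.FC.Stm
set_option autoImplicit false

/-! # Project FD: exponents -/

namespace Pool.Agent.Y248.FD

open Pool.Agent.Y248.FC (th)

theorem lam {A l : ℝ} (hA : 1 < A) (hl : 0 < l) (hl1 : l ≤ 1) (h : 1 ≤ A * l ^ 2) :
    ∃ v : ℝ, 0 ≤ v ∧ v ≤ 1 / 2 ∧ l = A ^ (-v) := by
  have hA0 : 0 < A := by linarith
  have hlA : 0 < Real.log A := Real.log_pos hA
  refine ⟨-Real.log l / Real.log A,
    div_nonneg (by linarith [Real.log_nonpos hl.le hl1]) hlA.le, ?_, ?_⟩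
  · rw [div_le_iff₀ hlA]
    have h1 : 0 ≤ Real.log (A * l ^ 2) := Real.log_nonneg h
    rw [Real.log_mul hA0.ne' (by positivity), Real.log_pow] at h1
    push_cast at h1
    linarith
  · rw [Real.rpow_def_of_pos hA0]
    have : Real.log A * -(-Real.log l / Real.log A) = Real.log l := by field_simp
    rw [this, Real.exp_log hl]

theorem exp_big (m : ℕ) {A v β p ε : ℝ} (hA : 1 ≤ A) (hv0 : 0 ≤ v) (hv : v ≤ 1 / 2) (hβ : β ≤ 1)
    (hp : 2 ≤ p) (ht : ((m : ℝ) + 1) * (1 - 2 / p) ≤ 1) (hε : 0 ≤ ε) :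
    (A ^ ε * ((A ^ (m + 1) * A ^ (-v)) ^ (-(1 - 2 / p)) * ((A * A ^ (-v)) ^ (-(1 - β))) ^
      (1 - ((m : ℝ) + 1) * (1 - 2 / p)))) ^ (p / 2) * (A ^ (-v) * (A ^ (1 + ε)) ^ (m + 1)) ^
      (p / 2 - 1) ≤ A ^ (p * (ε - (1 - β) * (1 - ((m : ℝ) + 1) * (1 - 2 / p)) / 4)) := by
  have hA0 : 0 < A := by linarith
  have hp0 : 0 < p := by linarith
  set w : ℝ := 1 - 2 / p with hw
  have hw0 : 0 ≤ w := by
    rw [hw, sub_nonneg, div_le_one hp0]; exact hp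
  have hpw : p / 2 - 1 = p / 2 * w := by rw [hw]; field_simp
  have a1 : A ^ (m + 1) * A ^ (-v) = A ^ ((m : ℝ) + 1 - v) := by
    rw [← Real.rpow_natCast, ← Real.rpow_add hA0]; congr 1; push_cast; ring
  have a2 : A * A ^ (-v) = A ^ (1 - v) := by
    nth_rw 1 [← Real.rpow_one A]
    rw [← Real.rpow_add hA0]; congr 1
  have a3 : A ^ (-v) * (A ^ (1 + ε)) ^ (m + 1) = A ^ (-v + (1 + ε) * ((m : ℝ) + 1)) := by
    rw [← Real.rpow_natCast, ← Real.rpow_mul hA0.le, ← Real.rpow_add hA0]; congr 1; push_cast; ring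
  rw [a1, a2, a3, hpw, ← Real.rpow_mul hA0.le, ← Real.rpow_mul hA0.le, ← Real.rpow_mul hA0.le,
    ← Real.rpow_mul hA0.le, ← Real.rpow_add hA0, ← Real.rpow_add hA0, ← Real.rpow_mul hA0.le,
    ← Real.rpow_add hA0]
  refine Real.rpow_le_rpow_of_exponent_le hA ?_
  have e : (ε + (((m : ℝ) + 1 - v) * -w + (1 - v) * -(1 - β) * (1 - ((m : ℝ) + 1) * w))) * (p / 2) +
      (-v + (1 + ε) * ((m : ℝ) + 1)) * (p / 2 * w) =
      p * ((ε + ε * (((m : ℝ) + 1) * w) - (1 - v) * ((1 - β) * (1 - ((m : ℝ) + 1) * w))) / 2) := by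
    ring
  rw [e]
  refine mul_le_mul_of_nonneg_left ?_ hp0.le
  have h1 : ε * (((m : ℝ) + 1) * w) ≤ ε * 1 := mul_le_mul_of_nonneg_left ht hε
  have h2 : 0 ≤ (1 - β) * (1 - ((m : ℝ) + 1) * w) := mul_nonneg (by linarith) (by linarith)
  have h3 : 1 / 2 * ((1 - β) * (1 - ((m : ℝ) + 1) * w)) ≤
      (1 - v) * ((1 - β) * (1 - ((m : ℝ) + 1) * w)) :=
    mul_le_mul_of_nonneg_right (by linarith) h2
  linarith

/-- the gain for `p < 2` -/
noncomputable def kpa (m : ℕ) : ℝ := ((m : ℝ) - 1) / (m * ((m : ℝ) + 1))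

theorem exp_small (m : ℕ) (hm : 2 ≤ m) {A v β p ε : ℝ} (hA : 1 ≤ A) (hv0 : 0 ≤ v)
    (hv : v ≤ 1 / 2) (hβ0 : 0 ≤ β) (hβ : β ≤ 1 / (m : ℝ)) (hp1 : 1 < p) (hp2 : p < 2)
    (hs : 2 * ((m : ℝ) + 1) * (1 / p - 1 / 2) ≤ 1) (hε : 0 ≤ ε) (hε1 : ε ≤ kpa m / 4) :
    ((A * A ^ (-v)) ^ (-(1 - β)) * A ^ (-th (m + 1) 0 (p / (p - 1)) + ε)) ^ (p / 2) *
      ((A ^ (1 + ε)) ^ m * (A ^ (-v) * A ^ (1 + ε)) ^ β) ^ (1 - p / 2) ≤
      A ^ (p * (-kpa m / 4)) := by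
  have hA0 : 0 < A := by linarith
  have hp0 : 0 < p := by linarith
  have hm2 : (2 : ℝ) ≤ m := by exact_mod_cast hm
  have hm0 : (0 : ℝ) < m := by linarith
  set s : ℝ := 1 / p - 1 / 2 with hsd
  have hs0 : 0 ≤ s := by
    rw [hsd, sub_nonneg, one_div_le_one_div two_pos hp0]; exact hp2.le
  have hth : th (m + 1) 0 (p / (p - 1)) = ((m : ℝ) + 2) * s := by
    unfold th
    have h1 : 1 / 2 - 1 / (p / (p - 1)) = s := by
      have : p - 1 ≠ 0 := by linarith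
      rw [hsd]
      field_simp
      ring
    rw [h1]
    push_cast
    rw [show (0 : ℝ) + ((m : ℝ) + 1 + 1 - 2 * 0) * s = ((m : ℝ) + 2) * s by ring]
    refine min_eq_right ?_
    nlinarith
  have hps : 1 - p / 2 = p / 2 * (2 * s) := by rw [hsd]; field_simp
  have a2 : A * A ^ (-v) = A ^ (1 - v) := by
    nth_rw 1 [← Real.rpow_one A]
    rw [← Real.rpow_add hA0]; congr 1
  have a3 : (A ^ (1 + ε)) ^ m = A ^ ((1 + ε) * (m : ℝ)) := by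
    rw [← Real.rpow_natCast, ← Real.rpow_mul hA0.le]
  have a4 : A ^ (-v) * A ^ (1 + ε) = A ^ (-v + (1 + ε)) := by rw [← Real.rpow_add hA0]
  rw [hth, a2, a3, a4, hps, ← Real.rpow_mul hA0.le, ← Real.rpow_mul hA0.le, ← Real.rpow_add hA0,
    ← Real.rpow_add hA0, ← Real.rpow_mul hA0.le, ← Real.rpow_mul hA0.le, ← Real.rpow_add hA0]
  refine Real.rpow_le_rpow_of_exponent_le hA ?_
  set κ : ℝ := kpa m with hκ
  have e : ((1 - v) * -(1 - β) + (-(((m : ℝ) + 2) * s) + ε)) * (p / 2) +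
      ((1 + ε) * (m : ℝ) + (-v + (1 + ε)) * β) * (p / 2 * (2 * s)) =
      p * ((-((1 - v) * ((1 - β) - 2 * s * β)) + s * ((m : ℝ) - 2) +
        ε * (1 + 2 * s * ((m : ℝ) + β))) / 2) := by
    ring
  rw [e]
  refine mul_le_mul_of_nonneg_left ?_ hp0.le
  have hβ1 : β ≤ 1 / 2 := by
    refine hβ.trans ?_
    gcongr
  have hβm : β * m ≤ 1 := by rwa [le_div_iff₀ hm0] at hβ
  have hsm : 2 * s * ((m : ℝ) + 1) ≤ 1 := by linarith
  have h2s : 2 * s ≤ 1 / 3 := by nlinarith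
  have h1 : ε * (1 + 2 * s * ((m : ℝ) + β)) ≤ ε * 2 := by
    refine mul_le_mul_of_nonneg_left ?_ hε
    nlinarith
  have h2 : 0 ≤ (1 - β) - 2 * s * β := by nlinarith
  have h3 : 1 / 2 * ((1 - β) - 2 * s * β) ≤ (1 - v) * ((1 - β) - 2 * s * β) :=
    mul_le_mul_of_nonneg_right (by linarith) h2
  have h4 : -(1 / 2 * ((1 - β) - 2 * s * β)) + s * ((m : ℝ) - 2) ≤ -κ := by
    have h5 : 0 ≤ (m : ℝ) - 2 + β := by linarith
    have h6 : s ≤ 1 / (2 * ((m : ℝ) + 1)) := by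
      rw [le_div_iff₀ (by positivity)]; linarith
    have h7 : s * ((m : ℝ) - 2 + β) ≤ 1 / (2 * ((m : ℝ) + 1)) * ((m : ℝ) - 2 + β) :=
      mul_le_mul_of_nonneg_right h6 h5
    have h8 : -(1 / 2 * (1 - β)) + 1 / (2 * ((m : ℝ) + 1)) * ((m : ℝ) - 2 + β) ≤ -κ := by
      have e1 : -(1 / 2 * (1 - β)) + 1 / (2 * ((m : ℝ) + 1)) * ((m : ℝ) - 2 + β) =
          (β * ((m : ℝ) + 2) - 3) / (2 * ((m : ℝ) + 1)) := by
        field_simp
        ring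
      have e2 : -κ = (1 / (m : ℝ) * ((m : ℝ) + 2) - 3) / (2 * ((m : ℝ) + 1)) := by
        rw [hκ, kpa]
        field_simp
        ring
      rw [e1, e2]
      gcongr
    linarith
  linarith

theorem kpa_pos (m : ℕ) (hm : 2 ≤ m) : 0 < kpa m := by
  have hm2 : (2 : ℝ) ≤ m := by exact_mod_cast hm
  unfold kpa
  have : 0 < (m : ℝ) - 1 := by linarith
  positivity

end Pool.Agent.Y248.FD
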