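import Mathlib
import Pool.Agent.Y248.FD.Asm
import Pool.Agent.Y248.FD.Exp
set_option autoImplicit false

/-! # Project FD: local bounds on the boxes, globalisation of the pieces -/

namespace Pool.Agent.Y248.FD

open MeasureTheory Set Metric Complex Filter
open scoped ENNReal RealInnerProductSpace Topology FourierTransform
open Pool.Agent.H789R2.FR (E sg T)
open Pool.Agent.H438R2.RZ (Bump)
open Pool.Agent.Y248.BA (mu Kr Tp mu_cont mu_far mu_int Kr_dec Kr_crude Jw Jw_pos mu_smooth four_eq)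
open Pool.Agent.Y248.FB Pool.Agent.Y248.FC

/-- local bounds with exponent `σ` on the boxes -/
def LocB (m : ℕ) (β K₀ p ε σ : ℝ) : Prop := ∀ ψ θ : ℝ → ℝ, Bump ψ → Cut θ → ∃ C : ℝ, 0 < C ∧
  ∀ ν : Measure (E 1), LD β K₀ ν →
    (∀ A l : ℝ, 64 ≤ A → Adm θ A l → ∀ (u : E (m + 1)) (f : E (m + 1) → ℂ), Measurable f →
      (∀ x, x ∉ Box m l u (2 * A ^ (1 + ε)) → f x = 0) → ∫⁻ x, ‖f x‖ₑ ^ p ≠ ∞ →
      ∫⁻ x in Box m l u (A ^ (1 + ε)), ‖Tq (pm m ψ θ A l) f x‖ₑ ^ p ∂(cyl m ν) ≤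
        ENNReal.ofReal (C * A ^ (p * σ)) * ∫⁻ x, ‖f x‖ₑ ^ p) ∧
    ((∀ s, s ≤ 1 → θ s = 1) → ∀ A : ℝ, 64 ≤ A → ∀ (u : E (m + 1)) (f : E (m + 1) → ℂ),
      Measurable f → (∀ x, x ∉ Box m 1 u (2 * A ^ (1 + ε)) → f x = 0) → ∫⁻ x, ‖f x‖ₑ ^ p ≠ ∞ →
      ∫⁻ x in Box m 1 u (A ^ (1 + ε)), ‖Tq (hi m ψ θ A) f x‖ₑ ^ p ∂(cyl m ν) ≤
        ENNReal.ofReal (C * A ^ (p * σ)) * ∫⁻ x, ‖f x‖ₑ ^ p)

theorem loc_big (m : ℕ) (hNB : S_NB m) (β K₀ p ε σ : ℝ) (hβ0 : 0 ≤ β) (hβ : β ≤ 1 / (m : ℝ))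
    (hβ1 : β ≤ 1) (hK : 0 ≤ K₀) (hp : 2 ≤ p) (ht : ((m : ℝ) + 1) * (1 - 2 / p) ≤ 1) (hε : 0 < ε)
    (hσ : ε - (1 - β) * (1 - ((m : ℝ) + 1) * (1 - 2 / p)) / 4 ≤ σ) : LocB m β K₀ p ε σ := by
  intro ψ θ hψ hθ
  obtain ⟨C, hC, hb⟩ := hNB ψ θ hψ hθ β K₀ p ε hβ0 hβ hK hp ht hε
  refine ⟨C, hC, fun ν hν => ⟨fun A l hA hAdm u f hfm hfs hfp => ?_,
    fun hθ1 A hA u f hfm hfs hfp => ?_⟩⟩
  · have hA0 : 0 < A := by linarith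
    have hA1 : 1 ≤ A := by linarith
    have hρ : 1 ≤ A ^ (1 + ε) := Real.one_le_rpow hA1 (by linarith)
    obtain ⟨v, hv0, hv1, rfl⟩ := lam (by linarith) hAdm.2.1 (by linarith [hAdm.2.2.1])
      hAdm.2.2.2.1
    refine (setLIntegral_le_lintegral _ _).trans
      (((hb ν hν).1 A _ hAdm u (A ^ (1 + ε)) hρ f hfm hfs hfp).trans ?_)
    refine mul_le_mul' (ENNReal.ofReal_le_ofReal ?_) le_rfl
    rw [mul_assoc]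
    refine mul_le_mul_of_nonneg_left ?_ hC.le
    refine (exp_big m hA1 hv0 hv1 hβ1 hp ht hε.le).trans ?_
    refine Real.rpow_le_rpow_of_exponent_le hA1 ?_
    exact mul_le_mul_of_nonneg_left hσ (by linarith)
  · have hA0 : 0 < A := by linarith
    have hA1 : 1 ≤ A := by linarith
    have hρ : 1 ≤ A ^ (1 + ε) := Real.one_le_rpow hA1 (by linarith)
    refine (setLIntegral_le_lintegral _ _).trans
      (((hb ν hν).2 hθ1 A (by linarith) u (A ^ (1 + ε)) hρ f hfm hfs hfp).trans ?_)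
    refine mul_le_mul' (ENNReal.ofReal_le_ofReal ?_) le_rfl
    rw [mul_assoc]
    refine mul_le_mul_of_nonneg_left ?_ hC.le
    have h := exp_big m (v := 0) hA1 le_rfl (by norm_num) hβ1 hp ht hε.le
    rw [neg_zero, Real.rpow_zero, mul_one, mul_one, one_mul] at h
    refine h.trans ?_
    refine Real.rpow_le_rpow_of_exponent_le hA1 ?_
    exact mul_le_mul_of_nonneg_left hσ (by linarith)

theorem loc_small (m : ℕ) (hm : 2 ≤ m) (hSB : S_SB m) (β K₀ p ε : ℝ) (hβ0 : 0 ≤ β)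
    (hβ : β ≤ 1 / (m : ℝ)) (hβ1 : β ≤ 1) (hK : 0 ≤ K₀) (hp1 : 1 < p) (hp2 : p < 2)
    (hs : 2 * ((m : ℝ) + 1) * (1 / p - 1 / 2) ≤ 1) (hε : 0 < ε) (hε1 : ε ≤ kpa m / 4) :
    LocB m β K₀ p ε (-kpa m / 4) := by
  intro ψ θ hψ hθ
  obtain ⟨C, hC, hb⟩ := hSB ψ θ hψ hθ β K₀ p ε hβ0 hβ1 hK hp1 hp2 hε
  refine ⟨C, hC, fun ν hν => ⟨fun A l hA hAdm u f hfm hfs hfp => ?_,
    fun hθ1 A hA u f hfm hfs hfp => ?_⟩⟩
  · have hA0 : 0 < A := by linarith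
    have hA1 : 1 ≤ A := by linarith
    obtain ⟨v, hv0, hv1, rfl⟩ := lam (by linarith) hAdm.2.1 (by linarith [hAdm.2.2.1])
      hAdm.2.2.2.1
    have hρ : 1 ≤ A ^ (-v) * A ^ (1 + ε) := by
      rw [← Real.rpow_add hA0]
      exact Real.one_le_rpow hA1 (by linarith)
    refine ((hb ν hν).1 A _ hAdm u (A ^ (1 + ε)) hρ f hfm hfs hfp).trans ?_
    refine mul_le_mul' (ENNReal.ofReal_le_ofReal ?_) le_rfl
    rw [mul_assoc]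
    refine mul_le_mul_of_nonneg_left ?_ hC.le
    exact exp_small m hm hA1 hv0 hv1 hβ0 hβ hp1 hp2 hs hε.le hε1
  · have hA0 : 0 < A := by linarith
    have hA1 : 1 ≤ A := by linarith
    have hρ : 1 ≤ A ^ (1 + ε) := Real.one_le_rpow hA1 (by linarith)
    refine ((hb ν hν).2 hθ1 A (by linarith) u (A ^ (1 + ε)) hρ f hfm hfs hfp).trans ?_
    refine mul_le_mul' (ENNReal.ofReal_le_ofReal ?_) le_rfl
    rw [mul_assoc]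
    refine mul_le_mul_of_nonneg_left ?_ hC.le
    have h := exp_small m hm (v := 0) hA1 le_rfl (by norm_num) hβ0 hβ hp1 hp2 hs hε.le hε1
    rw [neg_zero, Real.rpow_zero, mul_one, one_mul] at h
    exact h

theorem pm_int (m : ℕ) {ψ θ : ℝ → ℝ} (hψ : Bump ψ) (hθ : Cut θ) {A : ℝ} (hA : 0 < A) (l : ℝ) :
    Integrable (pm m ψ θ A l) :=
  q_int (pm_cont m hψ hθ A l) (pm_far m hψ θ hA l)

theorem hi_int (m : ℕ) {ψ θ : ℝ → ℝ} (hψ : Bump ψ) (hθ : Cut θ) {A : ℝ} (hA : 0 < A) :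
    Integrable (hi m ψ θ A) :=
  q_int (hi_cont m hψ hθ A) (hi_far m hψ θ hA)

theorem hi_eq (m : ℕ) (ψ θ : ℝ → ℝ) (A : ℝ) (ξ : E (m + 1)) :
    hi m ψ θ A ξ = mu ψ A 1 ξ - pm m ψ θ A (1 / 8) ξ := by
  unfold hi pm
  have : ‖pr m ξ‖ ^ 2 / (1 / 8 : ℝ) ^ 2 = 64 * ‖pr m ξ‖ ^ 2 := by ring
  rw [this]
  push_cast
  ring

theorem four_hi (m : ℕ) {ψ θ : ℝ → ℝ} (hψ : Bump ψ) (hθ : Cut θ) {A : ℝ} (hA : 0 < A)
    (x : E (m + 1)) : 𝓕 (hi m ψ θ A) x = Kr ψ A 1 x - 𝓕 (pm m ψ θ A (1 / 8)) x := by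
  unfold Kr
  rw [four_eq, four_eq, four_eq, ← integral_sub]
  · refine integral_congr_ae (Eventually.of_forall fun ξ => ?_)
    simp only [hi_eq]
    ring
  · refine ((mu_int hψ hA one_pos (by norm_num)).norm).mono' ?_ (Eventually.of_forall fun ξ => ?_)
    · have h1 : Continuous fun ξ : E (m + 1) => cexp (((-2 * Real.pi * ⟪ξ, x⟫ : ℝ) : ℂ) * I) := by
        fun_prop
      exact (h1.mul (mu_cont hψ A 1)).aestronglyMeasurable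
    · rw [norm_mul, Complex.norm_exp_ofReal_mul_I, one_mul]
  · refine ((pm_int m hψ hθ hA (1 / 8)).norm).mono' ?_ (Eventually.of_forall fun ξ => ?_)
    · have h1 : Continuous fun ξ : E (m + 1) => cexp (((-2 * Real.pi * ⟪ξ, x⟫ : ℝ) : ℂ) * I) := by
        fun_prop
      exact (h1.mul (pm_cont m hψ hθ A _)).aestronglyMeasurable
    · rw [norm_mul, Complex.norm_exp_ofReal_mul_I, one_mul]

theorem hd_le (m : ℕ) (x : E (m + 1)) : ‖hd m x‖ ≤ ‖x‖ := by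
  have h := norm_split m x
  refine le_of_sq_le_sq ?_ (norm_nonneg _)
  nlinarith [sq_nonneg ‖pr m x‖]

theorem pr_le (m : ℕ) (x : E (m + 1)) : ‖pr m x‖ ≤ ‖x‖ := by
  have h := norm_split m x
  refine le_of_sq_le_sq ?_ (norm_nonneg _)
  nlinarith [sq_nonneg ‖hd m x‖]

/-- decay of the kernel of the high piece -/
theorem hi_dec (m : ℕ) (hDC : S_DC m) {ψ θ : ℝ → ℝ} (hψ : Bump ψ) (hθ : Cut θ) (N : ℕ) :
    ∃ C : ℝ, 0 < C ∧ ∀ A : ℝ, 64 ≤ A → ∀ x : E (m + 1),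
      (‖hd m x‖ + ‖pr m x‖ / 1) ^ N * ‖𝓕 (hi m ψ θ A) x‖ ≤ C * A ^ N := by
  obtain ⟨C1, hC1, h1⟩ := hDC ψ θ hψ hθ N
  obtain ⟨C2, hC2, h2⟩ := Kr_dec (m + 1) hψ N
  refine ⟨2 ^ N * C2 + C1, by positivity, fun A hA x => ?_⟩
  have hA0 : 0 < A := by linarith
  have e1 := h1 A (by linarith) (1 / 8) (by norm_num) (by norm_num) (by nlinarith) x
  have e2 := h2 A 1 (by linarith) le_rfl (by norm_num) x
  rw [four_hi m hψ hθ hA0, div_one]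
  have n1 := norm_nonneg (hd m x)
  have n2 := norm_nonneg (pr m x)
  have f1 : (‖hd m x‖ + ‖pr m x‖) ^ N * ‖Kr ψ A 1 x‖ ≤ 2 ^ N * C2 * A ^ N := by
    have : (‖hd m x‖ + ‖pr m x‖) ^ N ≤ (2 * ‖x‖) ^ N := by
      have h3 := hd_le m x
      have h4 := pr_le m x
      gcongr
      linarith
    calc (‖hd m x‖ + ‖pr m x‖) ^ N * ‖Kr ψ A 1 x‖ ≤ (2 * ‖x‖) ^ N * ‖Kr ψ A 1 x‖ := by gcongr
      _ = 2 ^ N * (‖x‖ ^ N * ‖Kr ψ A 1 x‖) := by rw [mul_pow]; ring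
      _ ≤ 2 ^ N * (C2 * A ^ N) := by gcongr
      _ = _ := by ring
  have f2 : (‖hd m x‖ + ‖pr m x‖) ^ N * ‖𝓕 (pm m ψ θ A (1 / 8)) x‖ ≤ C1 * A ^ N := by
    refine le_trans ?_ e1
    gcongr
    rw [le_div_iff₀ (by norm_num)]
    nlinarith
  calc (‖hd m x‖ + ‖pr m x‖) ^ N * ‖Kr ψ A 1 x - 𝓕 (pm m ψ θ A (1 / 8)) x‖ ≤
      (‖hd m x‖ + ‖pr m x‖) ^ N * (‖Kr ψ A 1 x‖ + ‖𝓕 (pm m ψ θ A (1 / 8)) x‖) := by
        gcongr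
        exact norm_sub_le _ _
    _ ≤ 2 ^ N * C2 * A ^ N + C1 * A ^ N := by rw [mul_add]; exact add_le_add f1 f2
    _ = _ := by ring

/-- the dimension of the cylinder measures -/
theorem cyl_dim (m : ℕ) (β K₀ : ℝ) (hβ0 : 0 ≤ β) (hβ1 : β ≤ 1) (hK : 0 < K₀) :
    ∃ D : ℝ, 0 < D ∧ ∀ ν : Measure (E 1), LD β K₀ ν → DimC ((m : ℝ) + 1) D (cyl m ν) := by
  obtain ⟨⟨D, hD, hDim⟩, -⟩ := Pool.Agent.Y79.FC.t_cy m 1
  refine ⟨D * K₀, by positivity, fun ν hν x r hr => ?_⟩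
  refine (hDim β K₀ hβ0 (by exact_mod_cast hβ1) hK.le ν hν x r hr).trans
    (ENNReal.ofReal_le_ofReal ?_)
  refine mul_le_mul_of_nonneg_left ?_ (by positivity)
  exact Real.rpow_le_rpow_of_exponent_le hr (by linarith)

/-- globalisation for one measure which is not normalised -/
theorem gb_one (m : ℕ) (hGB : S_GB m) (p ε σ D C₁ : ℝ) (hp : 1 ≤ p) (hε : 0 < ε) (hD : 0 < D)
    (hC₁ : 0 < C₁) : ∃ N : ℕ, ∀ C₀ : ℝ, 0 < C₀ → ∃ C : ℝ, 0 < C ∧ ∀ μ : Measure (E (m + 1)),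
    DimC ((m : ℝ) + 1) D μ → ∀ A : ℝ, 1 ≤ A → ∀ l : ℝ, 0 < l → l ≤ 1 →
    ∀ q : E (m + 1) → ℂ, Integrable q →
    (∀ x, (‖hd m x‖ + ‖pr m x‖ / l) ^ N * ‖𝓕 q x‖ ≤ C₀ * A ^ N) →
    (∀ (u : E (m + 1)) (g : E (m + 1) → ℂ), Measurable g →
      (∀ x, x ∉ Box m l u (2 * A ^ (1 + ε)) → g x = 0) → ∫⁻ x, ‖g x‖ₑ ^ p ≠ ∞ →
      ∫⁻ x in Box m l u (A ^ (1 + ε)), ‖Tq q g x‖ₑ ^ p ∂μ ≤
        ENNReal.ofReal (C₁ * A ^ (p * σ)) * ∫⁻ x, ‖g x‖ₑ ^ p) →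
    ∀ f : E (m + 1) → ℂ, Measurable f → ∫⁻ x, ‖f x‖ₑ ^ p ≠ ∞ →
      ∫⁻ x, ‖Tq q f x‖ₑ ^ p ∂μ ≤ ENNReal.ofReal (C * A ^ (p * σ)) * ∫⁻ x, ‖f x‖ₑ ^ p := by
  obtain ⟨N, hN⟩ := hGB p ε |p * σ| hp hε
  refine ⟨N, fun C₀ hC₀ => ?_⟩
  obtain ⟨C, hC, hb⟩ := hN C₀ hC₀
  refine ⟨D * (2 ^ (p - 1) * (2 ^ (m + 1) * (D⁻¹ * C₁) + C)), by positivity,
    fun μ hμ A hA l hl hl1 q hq hqd hloc f hf hfp => ?_⟩
  have hA0 : 0 < A := by linarith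
  have h1 := hb (ENNReal.ofReal D⁻¹ • μ) (Dim.of_smul hD hμ) A hA l hl hl1 q hq hqd
    (D⁻¹ * C₁ * A ^ (p * σ)) (by positivity) (fun u g hg hg2 hg3 => by
      rw [Measure.restrict_smul, lintegral_smul_measure, smul_eq_mul]
      refine (mul_le_mul' le_rfl (hloc u g hg hg2 hg3)).trans (le_of_eq ?_)
      rw [← mul_assoc, ← ENNReal.ofReal_mul (by positivity), mul_assoc]) f hf hfp
  rw [lintegral_smul_measure, smul_eq_mul] at h1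
  have h2 := mul_le_mul' (le_refl (ENNReal.ofReal D)) h1
  rw [← mul_assoc, ← ENNReal.ofReal_mul hD.le, mul_inv_cancel₀ hD.ne', ENNReal.ofReal_one,
    one_mul, ← mul_assoc, ← ENNReal.ofReal_mul hD.le] at h2
  refine h2.trans (mul_le_mul' (ENNReal.ofReal_le_ofReal ?_) le_rfl)
  have h6 : A ^ (-|p * σ|) ≤ A ^ (p * σ) :=
    Real.rpow_le_rpow_of_exponent_le hA (neg_abs_le _)
  calc D * (2 ^ (p - 1) * (2 ^ (m + 1) * (D⁻¹ * C₁ * A ^ (p * σ)) + C * A ^ (-|p * σ|)))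
      ≤ D * (2 ^ (p - 1) * (2 ^ (m + 1) * (D⁻¹ * C₁ * A ^ (p * σ)) + C * A ^ (p * σ))) := by
        gcongr
    _ = _ := by ring

/-- global bounds for all pieces -/
theorem glb (m : ℕ) (hGB : S_GB m) (hDC : S_DC m) (β K₀ p ε σ : ℝ) (hβ0 : 0 ≤ β) (hβ1 : β ≤ 1)
    (hK : 0 < K₀) (hp : 1 ≤ p) (hε : 0 < ε) (hL : LocB m β K₀ p ε σ) (ψ θ : ℝ → ℝ) (hψ : Bump ψ)
    (hθ : Cut θ) : ∃ C : ℝ, 0 < C ∧ ∀ ν : Measure (E 1), LD β K₀ ν →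
    (∀ A l : ℝ, 64 ≤ A → Adm θ A l → ∀ f : E (m + 1) → ℂ, Measurable f → ∫⁻ x, ‖f x‖ₑ ^ p ≠ ∞ →
      ∫⁻ x, ‖Tq (pm m ψ θ A l) f x‖ₑ ^ p ∂(cyl m ν) ≤
        ENNReal.ofReal (C * A ^ (p * σ)) * ∫⁻ x, ‖f x‖ₑ ^ p) ∧
    ((∀ s, s ≤ 1 → θ s = 1) → ∀ A : ℝ, 64 ≤ A → ∀ f : E (m + 1) → ℂ, Measurable f →
      ∫⁻ x, ‖f x‖ₑ ^ p ≠ ∞ → ∫⁻ x, ‖Tq (hi m ψ θ A) f x‖ₑ ^ p ∂(cyl m ν) ≤
        ENNReal.ofReal (C * A ^ (p * σ)) * ∫⁻ x, ‖f x‖ₑ ^ p) := by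
  obtain ⟨C₁, hC₁, hL1⟩ := hL ψ θ hψ hθ
  obtain ⟨D, hD, hDim⟩ := cyl_dim m β K₀ hβ0 hβ1 hK
  obtain ⟨N, hN⟩ := gb_one m hGB p ε σ D C₁ hp hε hD hC₁
  obtain ⟨C₂, hC₂, h2⟩ := hDC ψ θ hψ hθ N
  obtain ⟨C₃, hC₃, h3⟩ := hi_dec m hDC hψ hθ N
  obtain ⟨C, hC, hb⟩ := hN (C₂ + C₃) (by positivity)
  refine ⟨C, hC, fun ν hν => ⟨fun A l hA hAdm f hf hfp => ?_, fun hθ1 A hA f hf hfp => ?_⟩⟩
  · have hA0 : 0 < A := by linarith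
    refine hb (cyl m ν) (hDim ν hν) A (by linarith) l hAdm.2.1 (by linarith [hAdm.2.2.1])
      (pm m ψ θ A l) (pm_int m hψ hθ hA0 l) (fun x => ?_)
      (fun u g hg hg2 hg3 => (hL1 ν hν).1 A l hA hAdm u g hg hg2 hg3) f hf hfp
    refine (h2 A (by linarith) l hAdm.2.1 (by linarith [hAdm.2.2.1]) hAdm.2.2.2.1 x).trans ?_
    have : 0 < A ^ N := by positivity
    nlinarith
  · have hA0 : 0 < A := by linarith
    refine hb (cyl m ν) (hDim ν hν) A (by linarith) 1 one_pos le_rfl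
      (hi m ψ θ A) (hi_int m hψ hθ hA0) (fun x => ?_)
      (fun u g hg hg2 hg3 => (hL1 ν hν).2 hθ1 A hA u g hg hg2 hg3) f hf hfp
    refine (h3 A hA x).trans ?_
    have : 0 < A ^ N := by positivity
    nlinarith

end Pool.Agent.Y248.FD
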