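import Mathlib
import Pool.Agent.Y248.FD.Loc
set_option autoImplicit false

/-! # Project FD: sums of pieces -/

namespace Pool.Agent.Y248.FD

open MeasureTheory Set Metric Complex Filter
open scoped ENNReal RealInnerProductSpace Topology FourierTransform
open Pool.Agent.H789R2.FR (E sg T)
open Pool.Agent.H438R2.RZ (Bump)
open Pool.Agent.Y248.BA (mu Kr Tp mu_cont mu_far mu_int gh)
open Pool.Agent.Y248.FB Pool.Agent.Y248.FC
open Pool.Agent.Y515.FB (ind_int)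

/-- linearity in the multiplier -/
theorem Tq_sum {n : ℕ} {ι : Type*} (s : Finset ι) (Q : ι → E n → ℂ) (q : E n → ℂ)
    (hq : Continuous q) (hq2 : ∀ ξ, 2 < ‖ξ‖ → q ξ = 0)
    (hQ : ∀ i ∈ s, Continuous (Q i)) (hQ2 : ∀ i ∈ s, ∀ ξ, 2 < ‖ξ‖ → Q i ξ = 0)
    (h : ∀ ξ, q ξ = ∑ i ∈ s, Q i ξ) {f : E n → ℂ} (hf : Integrable f) (x : E n) :
    Tq q f x = ∑ i ∈ s, Tq (Q i) f x := by
  rw [Tq_eq hq hq2 hf, Finset.sum_congr rfl fun i hi => Tq_eq (hQ i hi) (hQ2 i hi) hf x,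
    ← integral_finsetSum]
  · refine integral_congr_ae (Eventually.of_forall fun ξ => ?_)
    simp only [Gq]
    rw [h ξ, Finset.sum_mul, Finset.mul_sum]
  · intro i hi
    obtain ⟨M, hM, hb⟩ := Gq_bdd (f := f) (hQ i hi) (hQ2 i hi)
    refine (ind_int (n := n) M).mono' ?_ (Eventually.of_forall fun ξ => hb (x, ξ))
    exact ((Gq_meas (hQ i hi) hf).comp (measurable_const.prodMk measurable_id)).aestronglyMeasurable

/-- sums of operators -/
theorem sum_le {n : ℕ} {ι : Type*} (s : Finset ι) (Q : ι → E n → ℂ) (q : E n → ℂ)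
    (hq : Continuous q) (hq2 : ∀ ξ, 2 < ‖ξ‖ → q ξ = 0)
    (hQ : ∀ i ∈ s, Continuous (Q i)) (hQ2 : ∀ i ∈ s, ∀ ξ, 2 < ‖ξ‖ → Q i ξ = 0)
    (h : ∀ ξ, q ξ = ∑ i ∈ s, Q i ξ) {f : E n → ℂ} (hf : Integrable f) (p : ℝ) (hp : 1 ≤ p)
    (μ : Measure (E n)) (B : ℝ≥0∞) (hB : ∀ i ∈ s, ∫⁻ x, ‖Tq (Q i) f x‖ₑ ^ p ∂μ ≤ B) :
    ∫⁻ x, ‖Tq q f x‖ₑ ^ p ∂μ ≤ (s.card : ℝ≥0∞) ^ p * B := by
  have hp0 : 0 < p := by linarith
  have hp1 : 0 ≤ p - 1 := by linarith
  calc ∫⁻ x, ‖Tq q f x‖ₑ ^ p ∂μ ≤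
      ∫⁻ x, (s.card : ℝ≥0∞) ^ (p - 1) * ∑ i ∈ s, ‖Tq (Q i) f x‖ₑ ^ p ∂μ := by
        refine lintegral_mono fun x => ?_
        rw [Tq_sum s Q q hq hq2 hQ hQ2 h hf x]
        refine (ENNReal.rpow_le_rpow (enorm_sum_le _ _) hp0.le).trans ?_
        exact ENNReal.rpow_sum_le_const_mul_sum_rpow _ _ hp
    _ = (s.card : ℝ≥0∞) ^ (p - 1) * ∑ i ∈ s, ∫⁻ x, ‖Tq (Q i) f x‖ₑ ^ p ∂μ := by
        rw [lintegral_const_mul' _ _ (ENNReal.rpow_ne_top_of_nonneg hp1 (by simp)),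
          lintegral_finsetSum' _ fun i hi =>
            ((Tq_meas (hQ i hi) (hQ2 i hi) hf).enorm.pow_const _).aemeasurable]
    _ ≤ (s.card : ℝ≥0∞) ^ (p - 1) * (s.card * B) := by
        gcongr
        refine (Finset.sum_le_sum hB).trans ?_
        rw [Finset.sum_const, nsmul_eq_mul]
    _ = _ := by
        rw [← mul_assoc]
        congr 1
        by_cases hc : s.card = 0
        · rw [hc]
          simp [ENNReal.zero_rpow_of_pos hp0]
        · nth_rw 2 [← ENNReal.rpow_one (s.card : ℝ≥0∞)]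
          rw [← ENNReal.rpow_add_of_nonneg _ _ hp1 zero_le_one]
          congr 1
          ring

/-- all pieces, for the cylinders -/
def PP (m : ℕ) (β K₀ p σ : ℝ) : Prop := ∀ ψ : ℝ → ℝ, Bump ψ →
  ∃ C : ℝ, 0 < C ∧ ∀ ν : Measure (E 1), LD β K₀ ν → ∀ A : ℝ, 1 ≤ A →
  ∀ f : E (m + 1) → ℂ, Measurable f → Integrable f → ∫⁻ x, ‖f x‖ₑ ^ p ≠ ∞ →
    ∫⁻ x, ‖Tp ψ A 1 f x‖ₑ ^ p ∂(cyl m ν) ≤ ENNReal.ofReal (C * A ^ (p * σ)) * ∫⁻ x, ‖f x‖ₑ ^ p

theorem pp_of_loc (m : ℕ) (hGB : S_GB m) (hDC : S_DC m) (β K₀ p ε σ σ' : ℝ) (hβ0 : 0 ≤ β)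
    (hβ1 : β ≤ 1) (hK : 0 < K₀) (hp : 1 ≤ p) (hε : 0 < ε) (hσ : σ' < σ)
    (hL : LocB m β K₀ p ε σ') : PP m β K₀ p σ := by
  intro ψ hψ
  have hp0 : 0 < p := by linarith
  obtain ⟨C1, hC1, h1⟩ := glb m hGB hDC β K₀ p ε σ' hβ0 hβ1 hK hp hε hL ψ th0 hψ th0_cut
  obtain ⟨C2, hC2, h2⟩ := glb m hGB hDC β K₀ p ε σ' hβ0 hβ1 hK hp hε hL ψ tha hψ tha_cut
  obtain ⟨D, hD, hDim⟩ := cyl_dim m β K₀ hβ0 hβ1 hK
  obtain ⟨C3, hC3, h3⟩ := cr64 (m + 1) hψ ((m : ℝ) + 1) p (by push_cast; exact le_rfl) hp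
  set η : ℝ := σ - σ' with hη
  have hη0 : 0 < η := by linarith
  set c : ℝ := min 1 ((64 : ℝ) ^ (p * σ)) with hc
  have hc0 : 0 < c := lt_min one_pos (Real.rpow_pos_of_pos (by norm_num) _)
  refine ⟨D * C3 / c + (1 / η) ^ p * (C1 + C2), by positivity,
    fun ν hν A hA f hf hfi hfp => ?_⟩
  have hA0 : 0 < A := by linarith
  rcases le_total A 64 with hA4 | hA4
  · -- small `A`
    have g1 := h3 (ENNReal.ofReal D⁻¹ • cyl m ν) (Dim.of_smul hD (hDim ν hν)) A hA hA4 f hf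
    rw [lintegral_smul_measure, smul_eq_mul] at g1
    have g2 := mul_le_mul' (le_refl (ENNReal.ofReal D)) g1
    rw [← mul_assoc, ← ENNReal.ofReal_mul hD.le, mul_inv_cancel₀ hD.ne', ENNReal.ofReal_one,
      one_mul, ← mul_assoc, ← ENNReal.ofReal_mul hD.le] at g2
    refine g2.trans (mul_le_mul' (ENNReal.ofReal_le_ofReal ?_) le_rfl)
    have h4 : c ≤ A ^ (p * σ) := by
      rcases le_total 0 (p * σ) with h | h
      · exact (min_le_left _ _).trans (Real.one_le_rpow hA h)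
      · exact (min_le_right _ _).trans (Real.rpow_le_rpow_of_nonpos hA0 hA4 h)
    have h5 : D * C3 ≤ D * C3 / c * A ^ (p * σ) := by
      rw [div_mul_eq_mul_div, le_div_iff₀ hc0]
      exact mul_le_mul_of_nonneg_left h4 (by positivity)
    refine h5.trans ?_
    have h6 : 0 < A ^ (p * σ) := Real.rpow_pos_of_pos hA0 _
    refine mul_le_mul_of_nonneg_right ?_ h6.le
    have : 0 < (1 / η) ^ p * (C1 + C2) := by positivity
    linarith
  · -- large `A`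
    obtain ⟨J, hJ1, hJ2⟩ := exists_nat_pow_near hA (show (1 : ℝ) < 4 by norm_num)
    have hJ3 : 3 ≤ J := by
      by_contra hc
      push Not at hc
      have : (4 : ℝ) ^ (J + 1) ≤ 4 ^ 3 := pow_le_pow_right₀ (by norm_num) (by omega)
      norm_num at this
      linarith
    set Q : ℕ → E (m + 1) → ℂ := fun j => if j = 2 then hi m ψ th0 A else
      if j < J then pm m ψ tha A ((2 : ℝ) ^ (-(j : ℝ))) else pm m ψ th0 A ((2 : ℝ) ^ (-(J : ℝ)))
      with hQ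
    set B : ℝ≥0∞ := ENNReal.ofReal ((C1 + C2) * A ^ (p * σ')) * ∫⁻ x, ‖f x‖ₑ ^ p with hB
    have hAσ : 0 < A ^ (p * σ') := Real.rpow_pos_of_pos hA0 _
    have hlj : ∀ j : ℕ, A * ((2 : ℝ) ^ (-(j : ℝ))) ^ 2 = A / 4 ^ j := by
      intro j
      rw [Real.rpow_neg (by norm_num), Real.rpow_natCast, inv_pow, ← pow_mul, mul_comm j 2, pow_mul]
      norm_num
      rfl
    have hl8 : ∀ j : ℕ, 3 ≤ j → (2 : ℝ) ^ (-(j : ℝ)) ≤ 1 / 8 := by
      intro j hj
      rw [Real.rpow_neg (by norm_num), Real.rpow_natCast, one_div]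
      apply inv_anti₀ (by norm_num)
      calc (8 : ℝ) = 2 ^ 3 := by norm_num
        _ ≤ 2 ^ j := pow_le_pow_right₀ (by norm_num) hj
    have hQc : ∀ j, Continuous (Q j) := by
      intro j
      simp only [hQ]
      split_ifs
      · exact hi_cont m hψ th0_cut A
      · exact pm_cont m hψ tha_cut A _
      · exact pm_cont m hψ th0_cut A _
    have hQf : ∀ j, ∀ ξ, 2 < ‖ξ‖ → Q j ξ = 0 := by
      intro j
      simp only [hQ]
      split_ifs
      · exact hi_far m hψ _ hA0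
      · exact pm_far m hψ _ hA0 _
      · exact pm_far m hψ _ hA0 _
    have hQs : ∀ ξ, mu ψ A 1 ξ = ∑ j ∈ Finset.Ico 2 (J + 1), Q j ξ := by
      intro ξ
      have e0 : ∑ j ∈ Finset.Ico 2 J, Q j ξ = Q 2 ξ + ∑ j ∈ Finset.Ico (2 + 1) J, Q j ξ :=
        Finset.sum_eq_sum_Ico_succ_bot (by omega) _
      rw [tele m ψ A J hJ3 ξ, Finset.sum_Ico_succ_top (by omega), e0]
      have e1 : Q 2 ξ = hi m ψ th0 A ξ := by simp [hQ]
      have e2 : Q J ξ = pm m ψ th0 A ((2 : ℝ) ^ (-(J : ℝ))) ξ := by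
        simp only [hQ]
        rw [if_neg (by omega), if_neg (by omega)]
      have e3 : ∑ j ∈ Finset.Ico (2 + 1) J, Q j ξ =
          ∑ j ∈ Finset.Ico 3 J, pm m ψ tha A ((2 : ℝ) ^ (-(j : ℝ))) ξ := by
        refine Finset.sum_congr rfl fun j hj => ?_
        rw [Finset.mem_Ico] at hj
        simp only [hQ]
        rw [if_neg (by omega), if_pos hj.2]
      rw [e1, e2, e3]
    have hQB : ∀ j ∈ Finset.Ico 2 (J + 1), ∫⁻ x, ‖Tq (Q j) f x‖ₑ ^ p ∂(cyl m ν) ≤ B := by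
      intro j hj
      rw [Finset.mem_Ico] at hj
      have hle1 : ENNReal.ofReal (C1 * A ^ (p * σ')) ≤
          ENNReal.ofReal ((C1 + C2) * A ^ (p * σ')) := by
        apply ENNReal.ofReal_le_ofReal
        nlinarith
      have hle2 : ENNReal.ofReal (C2 * A ^ (p * σ')) ≤
          ENNReal.ofReal ((C1 + C2) * A ^ (p * σ')) := by
        apply ENNReal.ofReal_le_ofReal
        nlinarith
      simp only [hQ]
      split_ifs with h5 h6
      · exact ((h1 ν hν).2 th0_one A hA4 f hf hfp).trans (mul_le_mul' hle1 le_rfl)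
      · refine ((h2 ν hν).1 A _ hA4 ⟨by linarith, Real.rpow_pos_of_pos two_pos _,
          hl8 j (by omega), ?_, Or.inl fun s hs => tha_zero s hs⟩ f hf hfp).trans
          (mul_le_mul' hle2 le_rfl)
        rw [hlj, le_div_iff₀ (by positivity), one_mul]
        exact (pow_le_pow_right₀ (by norm_num) h6.le).trans hJ1
      · refine ((h1 ν hν).1 A _ hA4 ⟨by linarith, Real.rpow_pos_of_pos two_pos _,
          hl8 J hJ3, ?_, Or.inr ?_⟩ f hf hfp).trans (mul_le_mul' hle1 le_rfl)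
        · rw [hlj, le_div_iff₀ (by positivity), one_mul]
          exact hJ1
        · rw [hlj, div_le_iff₀ (by positivity)]
          rw [pow_succ] at hJ2
          have : (0 : ℝ) < 4 ^ J := by positivity
          linarith
    have key := sum_le (Finset.Ico 2 (J + 1)) Q (mu ψ A 1) (mu_cont hψ A 1)
      (fun ξ hξ => mu_far hψ hA0 one_pos ξ (by linarith)) (fun i _ => hQc i) (fun i _ => hQf i)
      hQs hfi p hp (cyl m ν) B hQB
    have e0 : ∫⁻ x, ‖Tp ψ A 1 f x‖ₑ ^ p ∂(cyl m ν) = ∫⁻ x, ‖Tq (mu ψ A 1) f x‖ₑ ^ p ∂(cyl m ν) :=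
      rfl
    rw [e0]
    refine key.trans ?_
    have hcard : ((Finset.Ico 2 (J + 1)).card : ℝ≥0∞) ≤ ENNReal.ofReal (1 / η * A ^ η) := by
      rw [Nat.card_Ico, ← ENNReal.ofReal_natCast]
      apply ENNReal.ofReal_le_ofReal
      have g1 : ((J + 1 - 2 : ℕ) : ℝ) ≤ J := by exact_mod_cast (by omega : J + 1 - 2 ≤ J)
      have g2 : (J : ℝ) * Real.log 4 ≤ Real.log A := by
        rw [← Real.log_pow]
        exact Real.log_le_log (by positivity) hJ1
      have g3 := Real.log_le_rpow_div hA0.le hη0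
      have g4 : 1 ≤ Real.log 4 := by
        rw [Real.le_log_iff_exp_le (by norm_num)]
        exact Real.exp_one_lt_three.le.trans (by norm_num)
      have g5 : (J : ℝ) ≤ J * Real.log 4 := by nlinarith [Nat.cast_nonneg (α := ℝ) J]
      calc ((J + 1 - 2 : ℕ) : ℝ) ≤ A ^ η / η := by linarith
        _ = _ := by ring
    refine (mul_le_mul' (ENNReal.rpow_le_rpow hcard hp0.le) le_rfl).trans ?_
    rw [hB, ← mul_assoc, ENNReal.ofReal_rpow_of_nonneg (by positivity) hp0.le,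
      ← ENNReal.ofReal_mul (by positivity)]
    refine mul_le_mul' (ENNReal.ofReal_le_ofReal ?_) le_rfl
    have e7 : (1 / η * A ^ η) ^ p * ((C1 + C2) * A ^ (p * σ')) =
        ((1 / η) ^ p * (C1 + C2)) * A ^ (p * σ) := by
      rw [Real.mul_rpow (by positivity) (by positivity), ← Real.rpow_mul hA0.le]
      have : A ^ (p * σ) = A ^ (η * p) * A ^ (p * σ') := by
        rw [← Real.rpow_add hA0]; congr 1; rw [hη]; ring
      rw [this]
      ring
    rw [e7]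
    refine mul_le_mul_of_nonneg_right ?_ (Real.rpow_nonneg hA0.le _)
    have : 0 < D * C3 / c := by positivity
    linarith

end Pool.Agent.Y248.FD
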