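import Mathlib
import Pool.Agent.Y248.FC.Main
import Pool.Agent.Y350.FC.SP
import Pool.Agent.Y79.FC.CY
import Pool.Agent.Y248.FD.Sum
import Pool.Agent.Y248.FD.Stm2
import Pool.Agent.Y574.FD.KL
import Pool.Agent.Y448.FD.DC
import Pool.Agent.Y884.FD.Ga
import Pool.Agent.Y261.FD.Spl
import Pool.Agent.Y949.FD.Sph
import Pool.Agent.Y488.FD.BS
import Pool.Agent.Y941.FD.Rt
import Pool.Agent.Y275.FD.LS
import Pool.Agent.Y665.FD.Glob
import Pool.Agent.Y93.FD.SB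
set_option autoImplicit false

/-! # Project FD: the theorem on cylinders -/

namespace Pool.Agent.Y248.FD

open MeasureTheory Set Metric Complex Filter
open scoped ENNReal RealInnerProductSpace Topology FourierTransform
open Pool.Agent.H789R2.FR (E sg T)
open Pool.Agent.H438R2.RZ (Bump)
open Pool.Agent.Y248.BA (mu Kr Tp)
open Pool.Agent.Y248.FB Pool.Agent.Y248.FC

theorem PQ.mono {n : ℕ} {X : Measure (E n) → Prop} {p σ τ : ℝ} (h : PQ n X p σ) (hp : 0 ≤ p)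
    (hστ : σ ≤ τ) : PQ n X p τ := by
  intro ψ hψ
  obtain ⟨C, hC, hb⟩ := h ψ hψ
  refine ⟨C, hC, fun μ hμ A hA f hf hfi hfp => (hb μ hμ A hA f hf hfi hfp).trans ?_⟩
  refine mul_le_mul' (ENNReal.ofReal_le_ofReal ?_) le_rfl
  refine mul_le_mul_of_nonneg_left ?_ hC.le
  exact Real.rpow_le_rpow_of_exponent_le hA (mul_le_mul_of_nonneg_left hστ hp)

/-- the class of cylinder measures -/
def Xc (m k : ℕ) (d K₀ : ℝ) (μ : Measure (E (m + k))) : Prop := ∃ ν : Measure (E k),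
  (∀ (t : E k) (r : ℝ), 1 ≤ r → ν (closedBall t r) ≤ ENNReal.ofReal (K₀ * r ^ d)) ∧ μ = cyl m ν

theorem Xc_dim (m k : ℕ) (d K₀ : ℝ) (hd0 : 0 ≤ d) (hdk : d ≤ k) (hK : 0 < K₀) :
    ∃ D : ℝ, 0 < D ∧ ∀ μ : Measure (E (m + k)), Xc m k d K₀ μ → DimC ((m + k : ℕ) : ℝ) D μ := by
  obtain ⟨⟨D, hD, hDim⟩, -⟩ := Pool.Agent.Y79.FC.t_cy m k
  refine ⟨D * K₀, by positivity, ?_⟩
  rintro μ ⟨ν, hν, rfl⟩ x r hr
  refine (hDim d K₀ hd0 hdk hK.le ν hν x r hr).trans (ENNReal.ofReal_le_ofReal ?_)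
  refine mul_le_mul_of_nonneg_left ?_ (by positivity)
  refine Real.rpow_le_rpow_of_exponent_le hr ?_
  push_cast
  linarith

theorem pq_of_pg (n : ℕ) (X : Measure (E n) → Prop) (D K γ p σ : ℝ) (hD : 0 < D) (hK : 0 ≤ K)
    (hX : ∀ μ, X μ → DimC n D μ ∧ Gain γ K μ) (hPG : PG n γ (D⁻¹ * K) p σ) : PQ n X p σ := by
  intro ψ hψ
  obtain ⟨C, hC, hb⟩ := hPG ψ hψ
  refine ⟨D * C, by positivity, fun μ hμ A hA f hf _ hfp => ?_⟩
  have h1 := hb _ (Dim.of_smul hD (hX μ hμ).1) ((hX μ hμ).2.smul (by positivity) hK) A hA f hf hfp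
  rw [lintegral_smul_measure, smul_eq_mul] at h1
  have h2 := mul_le_mul' (le_refl (ENNReal.ofReal D)) h1
  rw [← mul_assoc, ← ENNReal.ofReal_mul hD.le, mul_inv_cancel₀ hD.ne', ENNReal.ofReal_one,
    one_mul, ← mul_assoc, ← ENNReal.ofReal_mul hD.le, ← mul_assoc] at h2
  exact h2

theorem Xc_gain (m k : ℕ) (hk : 2 ≤ k) (K₀ γ : ℝ) (hK : 0 < K₀) (hγ : γ < 1 / 2) :
    ∃ K : ℝ, 0 < K ∧ ∀ μ : Measure (E (m + k)), Xc m k ((k : ℝ) / 2) K₀ μ → Gain γ K μ := by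
  have hk2 : (2 : ℝ) ≤ k := by exact_mod_cast hk
  obtain ⟨K, hKpos, hAnn⟩ := Pool.Agent.Y86.FC.t_an k hk
    (Pool.Agent.Y210.FB.t_kk k hk (Pool.Agent.Y407.FB.t_rad k hk)) ((k : ℝ) / 2) γ K₀ le_rfl
    (by linarith) (by linarith) hK.le
  refine ⟨K, hKpos, ?_⟩
  rintro μ ⟨ν, hν, rfl⟩
  refine Pool.Agent.Y363.FC.t_sl m k γ K ν (fun t r => ?_) (hAnn ν hν)
  refine (measure_mono (closedBall_subset_closedBall (le_max_left r 1))).trans_lt ?_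
  exact (hν t _ (le_max_right r 1)).trans_lt ENNReal.ofReal_lt_top

theorem exists_gam {g : ℝ → ℝ} (hg : Continuous g) {a : ℝ} (h : g (1 / 2) < a) :
    ∃ γ : ℝ, 0 ≤ γ ∧ γ < 1 / 2 ∧ g γ < a := by
  have hc : Continuous fun ε => g (1 / 2 - ε) := hg.comp (continuous_const.sub continuous_id)
  have h2 : ∀ᶠ ε in 𝓝 (0 : ℝ), g (1 / 2 - ε) < a :=
    hc.continuousAt.eventually (gt_mem_nhds (by simpa using h))
  obtain ⟨r, hr, hb⟩ := Metric.eventually_nhds_iff.1 h2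
  have h0 : 0 < min (r / 2) (1 / 2) := lt_min (by positivity) (by norm_num)
  refine ⟨1 / 2 - min (r / 2) (1 / 2), by linarith [min_le_right (r / 2) (1 / 2 : ℝ)], by linarith,
    hb ?_⟩
  rw [Real.dist_eq, sub_zero, abs_of_pos h0]
  exact (min_le_left _ _).trans_lt (by linarith)

/-- `k ≥ 2` -/
theorem crit_two (m k : ℕ) (hk : 2 ≤ k) (K₀ p δ : ℝ) (hK : 0 < K₀) (hδ : 0 ≤ δ) (hp0 : 1 < p)
    (hp1 : 2 * ((m + k : ℕ) : ℝ) / (((m + k : ℕ) : ℝ) + 1) ≤ p)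
    (h : |1 / 2 - 1 / p| < (1 + 2 * δ) / (2 * ((m + k : ℕ) : ℝ))) :
    ∃ σ : ℝ, σ < δ ∧ PQ (m + k) (Xc m k ((k : ℝ) / 2) K₀) p σ := by
  set n : ℕ := m + k with hn
  have hn2' : 2 ≤ n := by omega
  have hn2 : (2 : ℝ) ≤ n := by exact_mod_cast hn2'
  have hn0 : (0 : ℝ) < n := by linarith
  have hk2 : (2 : ℝ) ≤ k := by exact_mod_cast hk
  have hSP := Pool.Agent.Y350.FC.t_sp n hn2'
    (Pool.Agent.Y210.FB.t_kk n hn2' (Pool.Agent.Y407.FB.t_rad n hn2'))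
  obtain ⟨D, hD, hDim⟩ := Xc_dim m k ((k : ℝ) / 2) K₀ (by positivity) (by linarith) hK
  rw [lt_div_iff₀ (by positivity)] at h
  rcases le_or_gt 2 p with h2 | h2
  · have hs : 0 ≤ 1 / 2 - 1 / p := by
      rw [sub_nonneg, one_div_le_one_div (by linarith) two_pos]; exact h2
    rw [abs_of_nonneg hs] at h
    obtain ⟨γ, hγ0, hγ1, hγ⟩ := exists_gam (g := fun γ => (((n : ℝ) - 1 + 2 * γ) *
      (1 / 2 - 1 / p) - γ) / 2) (by fun_prop) (a := δ) (by nlinarith)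
    obtain ⟨K, hKpos, hG⟩ := Xc_gain m k hk K₀ γ hK hγ1
    obtain ⟨σ, hσ1, hσ2⟩ := exists_between (max_lt hγ
      (show (n : ℝ) * (1 / 2 - 1 / p) - 1 / 2 < δ by linarith))
    have hGN := t_gn n hn2' (t_gl2 n hn2' (Pool.Agent.Y350.FC.t_ge n hn2' hSP))
    exact ⟨σ, hσ2, pq_of_pg n _ D K γ p σ hD hKpos.le (fun μ hμ => ⟨hDim μ hμ, hG μ hμ⟩)
      (pg_big n hGN (Pool.Agent.Y71.FB.t_gl n hn2') (Pool.Agent.Y71.FB.t_cr n hn2') γ (D⁻¹ * K) p σ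
      hγ0 (by linarith) (by positivity) h2 ((le_max_left _ _).trans_lt hσ1)
      ((le_max_right _ _).trans_lt hσ1))⟩
  · have hs : 0 ≤ 1 / p - 1 / 2 := by
      rw [sub_nonneg, one_div_le_one_div two_pos (by linarith)]; exact h2.le
    rw [abs_of_nonpos (by linarith : 1 / 2 - 1 / p ≤ 0)] at h
    have e3 : 1 / p ≤ ((n : ℝ) + 1) / (2 * n) := by
      rw [div_le_div_iff₀ (by linarith) (by linarith)]
      rw [div_le_iff₀ (by linarith)] at hp1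
      linarith
    have e4 : ((n : ℝ) + 1) / (2 * n) = 1 / 2 + 1 / (2 * n) := by
      field_simp
    have e5 : 1 / p - 1 / 2 ≤ 1 / (2 * n) := by linarith
    have e6 : ((n : ℝ) + 1) * (1 / p - 1 / 2) ≤ 1 := by
      calc ((n : ℝ) + 1) * (1 / p - 1 / 2) ≤ ((n : ℝ) + 1) * (1 / (2 * n)) := by gcongr
        _ ≤ 1 := by
          rw [mul_one_div, div_le_one (by linarith)]; linarith
    obtain ⟨γ, hγ0, hγ1, hγ⟩ := exists_gam (g := fun γ => (((n : ℝ) - 1) *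
      (1 / p - 1 / 2) - γ) / 2) (by fun_prop) (a := δ) (by nlinarith)
    obtain ⟨K, hKpos, hG⟩ := Xc_gain m k hk K₀ γ hK hγ1
    obtain ⟨σ, hσ1, hσ2⟩ := exists_between hγ
    have hGS := Pool.Agent.Y737.FC.t_gs n hn2' (Pool.Agent.Y350.FC.t_ge n hn2' hSP)
    exact ⟨σ, hσ2, pq_of_pg n _ D K γ p σ hD hKpos.le (fun μ hμ => ⟨hDim μ hμ, hG μ hμ⟩)
      (pg_small n hGS (Pool.Agent.Y71.FB.t_gl n hn2') (Pool.Agent.Y71.FB.t_cr n hn2') γ (D⁻¹ * K) p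
      σ hγ0 (by linarith) (by positivity) hp0 h2 e6 hσ1)⟩

theorem pq_of_pp (m : ℕ) (d K₀ p σ : ℝ) (h : PP m d K₀ p σ) : PQ (m + 1) (Xc m 1 d K₀) p σ := by
  intro ψ hψ
  obtain ⟨C, hC, hb⟩ := h ψ hψ
  refine ⟨C, hC, ?_⟩
  rintro μ ⟨ν, hν, rfl⟩ A hA f hf hfi hfp
  exact hb ν hν A hA f hf hfi hfp

/-- `k = 1` -/
theorem crit_one (m : ℕ) (hm : 2 ≤ m) (K₀ p δ : ℝ) (hK : 0 < K₀) (hδ : 0 ≤ δ) (hp0 : 1 < p)
    (hp1 : 2 * ((m + 1 : ℕ) : ℝ) / (((m + 1 : ℕ) : ℝ) + 1) ≤ p)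
    (hp2 : p ≤ 2 * ((m + 1 : ℕ) : ℝ) / (((m + 1 : ℕ) : ℝ) - 1))
    (h : |1 / 2 - 1 / p| < (1 + 2 * δ) / (2 * ((m + 1 : ℕ) : ℝ))) :
    ∃ σ : ℝ, σ < δ ∧ PQ (m + 1) (Xc m 1 (1 / (m : ℝ)) K₀) p σ := by
  have hm2 : (2 : ℝ) ≤ m := by exact_mod_cast hm
  have hm0 : (0 : ℝ) < m := by linarith
  have hn2 : 2 ≤ m + 1 := by omega
  have hkk := Pool.Agent.Y210.FB.t_kk (m + 1) hn2 (Pool.Agent.Y407.FB.t_rad (m + 1) hn2)
  have hGA := Pool.Agent.Y884.FD.t_ga m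
  have hDC := Pool.Agent.Y448.FD.t_dc m
  have hGB := Pool.Agent.Y665.FD.t_gb m
  have hβ0 : 0 ≤ 1 / (m : ℝ) := by positivity
  have hβ1 : 1 / (m : ℝ) ≤ 1 / 2 := by gcongr
  push_cast at hp1 hp2 h
  rcases le_or_gt 2 p with h2 | h2
  · have hKL := Pool.Agent.Y574.FD.t_kl m hm (Pool.Agent.Y407.FB.t_rad m hm) hkk
    have hKH := Pool.Agent.Y574.FD.t_kh m hm hkk
    have hSPL := Pool.Agent.Y261.FD.t_spl m hm hKL hGA
    have hSPH := Pool.Agent.Y949.FD.t_sph m hm hkk hKH hGA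
    have hBS := Pool.Agent.Y488.FD.t_bs m hm hGA
    have hRT := Pool.Agent.Y941.FD.t_rt m hm hBS hSPL hSPH
    have hNB := t_nb m hm hRT (Pool.Agent.Y275.FD.t_ls (m + 1)) hBS
    have hs : 0 ≤ 1 / 2 - 1 / p := by
      rw [sub_nonneg, one_div_le_one_div (by linarith) two_pos]; exact h2
    rw [abs_of_nonneg hs, lt_div_iff₀ (by positivity)] at h
    have ht : ((m : ℝ) + 1) * (1 - 2 / p) ≤ 1 := by
      have e1 : (m : ℝ) / ((m : ℝ) + 1) ≤ 2 / p := by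
        rw [div_le_div_iff₀ (by linarith) (by linarith)]
        rw [show (m : ℝ) + 1 - 1 = m by ring, le_div_iff₀ hm0] at hp2
        linarith
      calc ((m : ℝ) + 1) * (1 - 2 / p) ≤ ((m : ℝ) + 1) * (1 - (m : ℝ) / ((m : ℝ) + 1)) := by
            gcongr
        _ = 1 := by field_simp; ring
    set t : ℝ := ((m : ℝ) + 1) * (1 - 2 / p) with htd
    set b : ℝ := -((1 - 1 / (m : ℝ)) * (1 - t) / 4) with hb
    have hb0 : b < δ := by
      rcases hδ.eq_or_lt with h0 | h0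
      · have ht1 : t < 1 := by
          rw [htd]
          have : (1 : ℝ) - 2 / p = 2 * (1 / 2 - 1 / p) := by ring
          rw [this]
          rw [← h0] at h
          linarith
        have : 0 < (1 - 1 / (m : ℝ)) * (1 - t) := mul_pos (by linarith) (by linarith)
        rw [hb, ← h0]
        linarith
      · have : 0 ≤ (1 - 1 / (m : ℝ)) * (1 - t) := mul_nonneg (by linarith) (by linarith)
        rw [hb]
        linarith
    set ε : ℝ := (δ - b) / 3 with hε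
    have hε0 : 0 < ε := by rw [hε]; linarith
    refine ⟨b + 2 * ε, by rw [hε]; linarith, pq_of_pp m _ K₀ p _ ?_⟩
    refine pp_of_loc m hGB hDC _ K₀ p ε (b + 2 * ε) (b + ε) hβ0 (by linarith) hK (by linarith) hε0
      (by linarith) ?_
    refine loc_big m hNB _ K₀ p ε (b + ε) hβ0 le_rfl (by linarith) hK.le h2 ht hε0 ?_
    rw [hb]
    linarith
  · have hSP := Pool.Agent.Y350.FC.t_sp (m + 1) hn2 hkk
    have hSB := Pool.Agent.Y93.FD.t_sb m hm (Pool.Agent.Y350.FC.t_ge (m + 1) hn2 hSP) hGA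
    have hκ := kpa_pos m hm
    have hs : 2 * ((m : ℝ) + 1) * (1 / p - 1 / 2) ≤ 1 := by
      have e3 : 1 / p ≤ ((m : ℝ) + 1 + 1) / (2 * ((m : ℝ) + 1)) := by
        rw [div_le_div_iff₀ (by linarith) (by linarith)]
        rw [div_le_iff₀ (by linarith)] at hp1
        linarith
      calc 2 * ((m : ℝ) + 1) * (1 / p - 1 / 2) ≤
          2 * ((m : ℝ) + 1) * (((m : ℝ) + 1 + 1) / (2 * ((m : ℝ) + 1)) - 1 / 2) := by gcongr
        _ = 1 := by field_simp; ring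
    refine ⟨-kpa m / 8, by linarith, pq_of_pp m _ K₀ p _ ?_⟩
    refine pp_of_loc m hGB hDC _ K₀ p (kpa m / 4) (-kpa m / 8) (-kpa m / 4) hβ0 (by linarith) hK
      (by linarith) (by linarith) (by linarith) ?_
    exact loc_small m hm hSB _ K₀ p (kpa m / 4) hβ0 le_rfl (by linarith) hK.le hp0 h2 hs
      (by linarith) le_rfl

end Pool.Agent.Y248.FD
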