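import Mathlib
import Pool.Agent.Y248.FD.Stm2
import Pool.Agent.Y248.FD.MD
import Pool.Agent.Y248.BA.Sum
set_option autoImplicit false

/-! # Project FD: exponents larger than `2n/(n-1)` -/

namespace Pool.Agent.Y248.FD

open MeasureTheory Set Metric Complex Filter
open scoped ENNReal RealInnerProductSpace Topology FourierTransform
open Pool.Agent.H789R2.FR (E sg T)
open Pool.Agent.H438R2.RZ (Bump)
open Pool.Agent.Y248.BA (mu Kr Tp int_of_loc loc_norm ball_vol memLp_two mu_cont mu_far mu_L2 gh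
  gh_cont gh_planch)
open Pool.Agent.Y248.FB Pool.Agent.Y248.FC

/-- the supremum bound -/
theorem Tp_sup {n : ℕ} {ψ : ℝ → ℝ} (hψ : Bump ψ) {A : ℝ} (hA : 0 < A) {f : E n → ℂ}
    (hf : Integrable f) (hf2 : MemLp f 2) (x : E n) : ‖Tp ψ A 1 f x‖ₑ ≤
      (∫⁻ ξ : E n, ‖mu ψ A 1 ξ‖ₑ ^ (2 : ℝ)) ^ (1 / 2 : ℝ) *
      (∫⁻ x, ‖f x‖ₑ ^ (2 : ℝ)) ^ (1 / 2 : ℝ) := by
  have e0 : Tp ψ A 1 f x = Tq (mu ψ A 1) f x := rfl
  rw [e0, Tq_eq (mu_cont hψ A 1) (fun ξ hξ => mu_far hψ hA one_pos ξ (by linarith)) hf]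
  refine (enorm_integral_le_lintegral_enorm _).trans ?_
  have h1 := ENNReal.lintegral_mul_le_Lp_mul_Lq (volume : Measure (E n))
    (p := 2) (q := 2) (by constructor <;> norm_num)
    (f := fun ξ => ‖mu ψ A 1 ξ‖ₑ) (g := fun ξ => ‖gh f ξ‖ₑ)
    (mu_cont hψ A 1).measurable.enorm.aemeasurable (gh_cont hf).measurable.enorm.aemeasurable
  rw [gh_planch hf hf2] at h1
  refine le_trans (le_of_eq ?_) h1
  refine lintegral_congr fun ξ => ?_
  rw [Gq, enorm_mul, enorm_mul, Pi.mul_apply, ← ofReal_norm (cexp _),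
    Complex.norm_exp_ofReal_mul_I, ENNReal.ofReal_one, one_mul]

theorem mul3 {a b c : ℝ} (ha : 0 ≤ a) (hb : 0 ≤ b) (_hc : 0 ≤ c) (y z : ℝ≥0∞) :
    (ENNReal.ofReal a * y) * (ENNReal.ofReal b * (ENNReal.ofReal c * z)) =
      ENNReal.ofReal (a * b * c) * (y * z) := by
  rw [ENNReal.ofReal_mul (mul_nonneg ha hb), ENNReal.ofReal_mul ha]
  ring

theorem t_up (n : ℕ) (hn : 2 ≤ n) : S_UP n := by
  intro X D hD hX hq p σ hp hσ
  have hn2 : (2 : ℝ) ≤ n := by exact_mod_cast hn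
  have hn1 : 0 < (n : ℝ) - 1 := by linarith
  have hn0 : (0 : ℝ) < n := by linarith
  set q : ℝ := 2 * (n : ℝ) / ((n : ℝ) - 1) with hqd
  have hq2 : 2 ≤ q := by rw [hqd, le_div_iff₀ hn1]; linarith
  have hp0 : 0 < p := by linarith
  have hq0 : 0 < q := by linarith
  set s₀ : ℝ := (n : ℝ) * (1 / 2 - 1 / p) - 1 / 2 with hs₀
  set η : ℝ := (σ - s₀) / 2 with hη
  have hη0 : 0 < η := by rw [hη]; linarith
  set ε : ℝ := η / n with hε
  have hε0 : 0 < ε := by positivity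
  refine pq_of_local n hn X D hD hX p ε σ (by linarith) hε0 fun ψ hψ => ?_
  obtain ⟨C₁, hC₁, h1⟩ := hq η hη0 ψ hψ
  obtain ⟨C₂, hC₂, h2⟩ := mu_L2 n hn hψ
  obtain ⟨V, hV, hVb⟩ := ball_vol n
  have hpq0 : 0 ≤ p - q := by linarith
  have h2p : 0 ≤ 1 - 2 / p := by rw [sub_nonneg, div_le_one hp0]; linarith
  have hqp : 0 ≤ 1 - q / p := by rw [sub_nonneg, div_le_one hp0]; linarith
  refine ⟨C₂ ^ ((p - q) / 2) * (V * 2 ^ n) ^ ((p - q) / 2) * C₁, by positivity,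
    fun μ hμ A hA u f hfm hfi hfs hfp => ?_⟩
  have hA0 : 0 < A := by linarith
  set ρ : ℝ := A ^ (1 + ε) with hρ
  have hρ0 : 0 < ρ := by positivity
  set Y : ℝ≥0∞ := ∫⁻ x, ‖f x‖ₑ ^ p with hY
  have hB : MeasurableSet (closedBall u (2 * ρ)) := isClosed_closedBall.measurableSet
  have l2 := loc_norm hfm hB hfs 2 p two_pos (by linarith)
  have lq := loc_norm hfm hB hfs q p hq0 hp.le
  rw [hVb u (2 * ρ) (by positivity), ENNReal.ofReal_rpow_of_nonneg (by positivity)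
    (by assumption), ← hY] at l2 lq
  have l2f : ∫⁻ x, ‖f x‖ₑ ^ (2 : ℝ) ≠ ∞ :=
    (l2.trans_lt (ENNReal.mul_lt_top ENNReal.ofReal_lt_top
      (ENNReal.rpow_lt_top_of_nonneg (by positivity) hfp))).ne
  have lqf : ∫⁻ x, ‖f x‖ₑ ^ q ≠ ∞ :=
    (lq.trans_lt (ENNReal.mul_lt_top ENNReal.ofReal_lt_top
      (ENNReal.rpow_lt_top_of_nonneg (by positivity) hfp))).ne
  have hsup := Tp_sup hψ hA0 hfi (memLp_two hfm l2f)
  set S : ℝ≥0∞ := (∫⁻ ξ : E n, ‖mu ψ A 1 ξ‖ₑ ^ (2 : ℝ)) ^ (1 / 2 : ℝ) *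
      (∫⁻ x, ‖f x‖ₑ ^ (2 : ℝ)) ^ (1 / 2 : ℝ) with hS
  have hmuf : ∫⁻ ξ : E n, ‖mu ψ A 1 ξ‖ₑ ^ (2 : ℝ) ≤ ENNReal.ofReal (C₂ / A) :=
    h2 A 1 hA le_rfl (by norm_num)
  have hSt : S ≠ ∞ := ENNReal.mul_ne_top
    (ENNReal.rpow_ne_top_of_nonneg (by norm_num) (hmuf.trans_lt ENNReal.ofReal_lt_top).ne)
    (ENNReal.rpow_ne_top_of_nonneg (by norm_num) l2f)
  have hS2 : S ^ (p - q) ≤ ENNReal.ofReal ((C₂ / A) ^ ((p - q) / 2) *
      (V * (2 * ρ) ^ n) ^ ((1 - 2 / p) * ((p - q) / 2))) * Y ^ ((p - q) / p) := by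
    rw [hS, ENNReal.mul_rpow_of_nonneg _ _ hpq0, ← ENNReal.rpow_mul, ← ENNReal.rpow_mul,
      ENNReal.ofReal_mul (by positivity), mul_assoc]
    refine mul_le_mul' ?_ ?_
    · refine (ENNReal.rpow_le_rpow hmuf (by positivity)).trans (le_of_eq ?_)
      rw [ENNReal.ofReal_rpow_of_nonneg (by positivity) (by positivity)]
      congr 2
      ring
    · refine (ENNReal.rpow_le_rpow l2 (by positivity)).trans (le_of_eq ?_)
      rw [ENNReal.mul_rpow_of_nonneg _ _ (by positivity),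
        ENNReal.ofReal_rpow_of_nonneg (by positivity) (by positivity), ← ENNReal.rpow_mul,
        ← Real.rpow_mul (by positivity)]
      congr 2
      · congr 2
        ring
      · field_simp
  calc ∫⁻ x in closedBall u ρ, ‖Tp ψ A 1 f x‖ₑ ^ p ∂μ
      ≤ ∫⁻ x, ‖Tp ψ A 1 f x‖ₑ ^ p ∂μ := setLIntegral_le_lintegral _ _
    _ ≤ ∫⁻ x, S ^ (p - q) * ‖Tp ψ A 1 f x‖ₑ ^ q ∂μ := by
        refine lintegral_mono fun x => ?_
        calc ‖Tp ψ A 1 f x‖ₑ ^ p = ‖Tp ψ A 1 f x‖ₑ ^ (p - q) * ‖Tp ψ A 1 f x‖ₑ ^ q := by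
              rw [← ENNReal.rpow_add_of_nonneg _ _ hpq0 hq0.le]; congr 1; ring
          _ ≤ _ := mul_le_mul' (ENNReal.rpow_le_rpow (hsup x) hpq0) le_rfl
    _ = S ^ (p - q) * ∫⁻ x, ‖Tp ψ A 1 f x‖ₑ ^ q ∂μ :=
        lintegral_const_mul' _ _ (ENNReal.rpow_ne_top_of_nonneg hpq0 hSt)
    _ ≤ (ENNReal.ofReal ((C₂ / A) ^ ((p - q) / 2) *
      (V * (2 * ρ) ^ n) ^ ((1 - 2 / p) * ((p - q) / 2))) * Y ^ ((p - q) / p)) *
        (ENNReal.ofReal (C₁ * A ^ (q * η)) *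
        (ENNReal.ofReal ((V * (2 * ρ) ^ n) ^ (1 - q / p)) * Y ^ (q / p))) := by
        refine mul_le_mul' hS2 ((h1 μ hμ A hA f hfm hfi lqf).trans ?_)
        exact mul_le_mul' le_rfl lq
    _ = ENNReal.ofReal (((C₂ / A) ^ ((p - q) / 2) *
      (V * (2 * ρ) ^ n) ^ ((1 - 2 / p) * ((p - q) / 2))) * (C₁ * A ^ (q * η)) *
        (V * (2 * ρ) ^ n) ^ (1 - q / p)) * (Y ^ ((p - q) / p) * Y ^ (q / p)) :=
        mul3 (by positivity) (by positivity) (by positivity) _ _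
    _ = ENNReal.ofReal (((C₂ / A) ^ ((p - q) / 2) *
      (V * (2 * ρ) ^ n) ^ ((1 - 2 / p) * ((p - q) / 2))) * (C₁ * A ^ (q * η)) *
        (V * (2 * ρ) ^ n) ^ (1 - q / p)) * Y := by
        rw [← ENNReal.rpow_add_of_nonneg _ _ (by positivity) (by positivity)]
        have : (p - q) / p + q / p = 1 := by field_simp; ring
        rw [this, ENNReal.rpow_one]
    _ ≤ _ := by
        refine mul_le_mul' (ENNReal.ofReal_le_ofReal ?_) le_rfl
        have e1 : (V * (2 * ρ) ^ n) ^ ((1 - 2 / p) * ((p - q) / 2)) *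
            (V * (2 * ρ) ^ n) ^ (1 - q / p) = (V * 2 ^ n) ^ ((p - q) / 2) *
            A ^ ((1 + ε) * n * ((p - q) / 2)) := by
          rw [← Real.rpow_add (by positivity)]
          have e2 : (1 - 2 / p) * ((p - q) / 2) + (1 - q / p) = (p - q) / 2 := by
            field_simp; ring
          have e3 : V * (2 * ρ) ^ n = (V * 2 ^ n) * A ^ ((1 + ε) * n) := by
            rw [mul_pow, hρ, ← Real.rpow_natCast (A ^ (1 + ε)) n, ← Real.rpow_mul hA0.le]
            ring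
          rw [e2, e3, Real.mul_rpow (by positivity) (by positivity), ← Real.rpow_mul hA0.le]
        have e4 : (C₂ / A) ^ ((p - q) / 2) = C₂ ^ ((p - q) / 2) * A ^ (-((p - q) / 2)) := by
          rw [Real.div_rpow hC₂.le hA0.le, Real.rpow_neg hA0.le]; rfl
        calc ((C₂ / A) ^ ((p - q) / 2) * (V * (2 * ρ) ^ n) ^ ((1 - 2 / p) * ((p - q) / 2))) *
              (C₁ * A ^ (q * η)) * (V * (2 * ρ) ^ n) ^ (1 - q / p)
            = (C₂ / A) ^ ((p - q) / 2) * C₁ * A ^ (q * η) *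
              ((V * (2 * ρ) ^ n) ^ ((1 - 2 / p) * ((p - q) / 2)) *
                (V * (2 * ρ) ^ n) ^ (1 - q / p)) := by ring
          _ = (C₂ ^ ((p - q) / 2) * (V * 2 ^ n) ^ ((p - q) / 2) * C₁) *
              (A ^ (-((p - q) / 2)) * A ^ (q * η) * A ^ ((1 + ε) * n * ((p - q) / 2))) := by
              rw [e1, e4]; ring
          _ ≤ _ := by
              refine mul_le_mul_of_nonneg_left ?_ (by positivity)
              rw [← Real.rpow_add hA0, ← Real.rpow_add hA0]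
              refine Real.rpow_le_rpow_of_exponent_le hA ?_
              have f1 : (n - 1) * q = 2 * (n : ℝ) := by
                rw [hqd]; field_simp
              have f2 : p * s₀ = (p * (n - 1) - 2 * (n : ℝ)) / 2 := by
                rw [hs₀]; field_simp; ring
              have f3 : -((p - q) / 2) + q * η + (1 + ε) * n * ((p - q) / 2) =
                  p * s₀ + q * η + (ε * n) * ((p - q) / 2) := by
                rw [f2, ← f1]; ring
              have f4 : ε * n = η := by rw [hε]; field_simp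
              have f5 : p * σ = p * s₀ + 2 * (p * η) := by rw [hη]; ring
              rw [f3, f4, f5]
              nlinarith

end Pool.Agent.Y248.FD
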