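import Pool.Agent.Y97.FD.Geo0

/-!
# Algebraicity of the dual of the form (helper248, job FD-CUP of helper97)
-/

set_option linter.unusedSectionVars false

open CategoryTheory AlgebraicGeometry Finset

universe u v

namespace Pool.Agent.Y248.FD

open Pool.Agent.H914 Pool.Agent.H914.VarClass Pool.Agent.H914.VarClass.Obj
  Pool.Agent.H914.WeilCohomology Pool.Agent.H281R3.HT Pool.Agent.W552 Pool.Agent.W539.Ker
  Pool.Agent.Y97 Pool.Agent.Y97.FD

variable {k : Type u} [Field k] {𝒱 : VarClass k} {ops : CycleOps 𝒱}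
  {W : WeilCohomology.{u, v} ops}

section One

variable {X : 𝒱.Obj} {D : X.Cycles} {f : Module.End W.K (W.H X)}

/-- the class on `X × X` which represents the form `(a, a') ↦ bf (p a) a'` -/
lemma exists_delta (G : Gp W X D f) {p : Module.End W.K (W.H X)} (hp : AOp W X X p) :
    ∃ δ : W.H (X.prod X), AS W _ δ ∧ ∀ a a' : W.H X,
      bf W (X.prod X) (ops.pull (fst X X) D + ops.pull (snd X X) D) (extSum W f f) δ
        (ext W a a') = bf W X D f (p a) a' := by
  have G2 := G.prod G
  have hu : AOp W (X.prod X) (X.prod X) (extOp W p (st W X D f) *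
      st W (X.prod X) (ops.pull (fst X X) D + ops.pull (snd X X) D) (extSum W f f)) :=
    (hp.ext G.gd.sa).mul G2.gd.sa
  obtain ⟨u', hu', hadj⟩ := hu.adj
  have hΔ : AS W (X.prod X) (W.push (diag X) (1 : W.H X)) := AS.one.push _
  have hδ := hu'.apply hΔ
  refine ⟨_, hδ, fun a a' => ?_⟩
  have e1 : diag X ≫ snd X X = 𝟙 X := Obj.lift_snd _ _
  have e2 : diag X ≫ fst X X = 𝟙 X := Obj.lift_fst _ _
  have h1 : extOp W p (st W X D f) (ext W a a') = ext W (p a) (st W X D f a') :=
    extOp_tmul _ _ _ _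
  rw [bf_apply, hδ.comm, ← hadj, Module.End.mul_apply, G2.gd.st_st_apply, h1, ← hΔ.comm,
    W.tr_push, one_mul, bf_apply]
  congr 1
  simp only [H281R3.HT.ext]
  rw [map_mul (W.map (diag X)), ← W.map_comp, ← W.map_comp, e1, e2, W.map_id, W.map_id]

/-- the projector onto the even or the odd part -/
lemma exists_parity (G : Gp W X D f) (b : HB W X) (c : Bool) :
    ∃ p : Module.End W.K (W.H X), AOp W X X p ∧
      ∀ i, p (b.e i) = if (decide (b.dg i % 2 = 1)) = c then b.e i else 0 := by
  have hpar : ∀ i, par (W.isInternal X) (b.e i) = (-1 : W.K) ^ (b.dg i) • b.e i := by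
    intro i
    rw [par, scal_apply _ _ (b.mem i)]
  have h2 : (((1 / 2 : ℚ)) : W.K) * 2 = 1 := by
    push_cast; norm_num
  cases c with
  | false =>
    refine ⟨((1 / 2 : ℚ) : W.K) • (1 + par (W.isInternal X)), (AOp.one.add G.gd.pa).smul _, ?_⟩
    intro i
    rw [LinearMap.smul_apply, LinearMap.add_apply, Module.End.one_apply, hpar]
    rcases Nat.even_or_odd (b.dg i) with h | h
    · have h3 : ¬ (b.dg i % 2 = 1) := by rw [Nat.even_iff] at h; omega
      rw [h.neg_one_pow, one_smul, decide_eq_false h3, if_pos rfl, ← two_smul W.K, smul_smul, h2,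
        one_smul]
    · have h3 : (b.dg i % 2 = 1) := Nat.odd_iff.1 h
      rw [h.neg_one_pow, neg_one_smul, decide_eq_true h3, add_neg_cancel, smul_zero]
      simp
  | true =>
    refine ⟨((1 / 2 : ℚ) : W.K) • (1 + ((-1 : ℚ) : W.K) • par (W.isInternal X)),
      (AOp.one.add (G.gd.pa.smul _)).smul _, ?_⟩
    intro i
    rw [LinearMap.smul_apply, LinearMap.add_apply, Module.End.one_apply, LinearMap.smul_apply,
      hpar]
    have h4 : ((-1 : ℚ) : W.K) = -1 := by push_cast; rfl
    rw [h4]
    rcases Nat.even_or_odd (b.dg i) with h | h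
    · have h3 : ¬ (b.dg i % 2 = 1) := by rw [Nat.even_iff] at h; omega
      rw [h.neg_one_pow, one_smul, decide_eq_false h3, neg_one_smul, add_neg_cancel, smul_zero]
      simp
    · have h3 : (b.dg i % 2 = 1) := Nat.odd_iff.1 h
      rw [h.neg_one_pow, neg_one_smul, neg_one_smul, neg_neg, decide_eq_true h3, if_pos rfl,
        ← two_smul W.K, smul_smul, h2, one_smul]

end One

variable {P : Polarized 𝒱} {f : Module.End W.K (W.H P.X)}

theorem a0_cup (G : Gp W P.X P.D f) (b : HB W P.X) (c : Bool) :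
    ∃ Cu : Matrix (Fin b.N) (Fin b.N) W.K,
      (∀ i j, ((Gm b f).transpose * Cu * Gm b f) i j = if gpar b i = c then Gm b f i j else 0) ∧
      A0 b 2 (fun I => Cu (I 0) (I 1)) := by
  obtain ⟨p, hp, hpe⟩ := exists_parity G b c
  obtain ⟨δ, hδ, hbf⟩ := exists_delta G hp
  refine ⟨Matrix.of fun i j => co b 1 δ ![i, j], ?_, δ, hδ, ?_⟩
  · intro i j
    have h1 : (if gpar b i = c then Gm b f i j else 0) = bf W P.X P.D f (p (b.e i)) (b.e j) := by
      rw [hpe]
      change (if decide (b.dg i % 2 = 1) = c then _ else _) = _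
      split_ifs
      · rfl
      · rw [map_zero, LinearMap.zero_apply]
    rw [h1, ← hbf]
    have h2 : δ = ∑ x : Fin b.N, ∑ y : Fin b.N, co b 1 δ ![x, y] • ext W (b.e x) (b.e y) := by
      have h3 := sum_co b 1 δ
      rw [← (finTwoArrowEquiv (Fin b.N)).symm.sum_comp, Fintype.sum_prod_type] at h3
      conv_lhs => rw [← h3]
      rfl
    conv_rhs => rw [h2]
    simp only [map_sum, LinearMap.sum_apply, map_smul, LinearMap.smul_apply, smul_eq_mul]
    have h4 : ∀ x y : Fin b.N, bf W (P.X.prod P.X) (ops.pull (fst P.X P.X) P.D +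
        ops.pull (snd P.X P.X) P.D) (extSum W f f) (ext W (b.e x) (b.e y))
        (ext W (b.e i) (b.e j)) = Gm b f x i * Gm b f y j := by
      intro x y
      exact G.fr.bf_ext G.fr _ _ _ _
    simp only [h4, Matrix.mul_apply, Matrix.transpose_apply, Matrix.of_apply, Finset.sum_mul]
    rw [Finset.sum_comm]
    refine Finset.sum_congr rfl fun x _ => Finset.sum_congr rfl fun y _ => ?_
    ring
  · funext I
    change co b 1 δ ![I 0, I 1] = co b 1 δ I
    congr 1
    funext t
    refine Fin.cases rfl (fun s => ?_) t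
    obtain rfl : s = 0 := Fin.eq_zero s
    rfl

end Pool.Agent.Y248.FD
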