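import Mathlib
import Pool.Agent.Y248.FD.Main
import Pool.Agent.Y248.FD.Up
set_option autoImplicit false

/-! # Project FD: all exponents -/

namespace Pool.Agent.Y248.FD

open MeasureTheory Set Metric Complex Filter
open scoped ENNReal RealInnerProductSpace Topology FourierTransform
open Pool.Agent.H789R2.FR (E sg T)
open Pool.Agent.H438R2.RZ (Bump)
open Pool.Agent.Y248.BA (mu Kr Tp)
open Pool.Agent.Y248.FB Pool.Agent.Y248.FC
open Pool.Agent.Y624.FB (t_hs geo_s)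

/-- the dimension of the bases of the cylinders -/
noncomputable def dm (m k : ℕ) : ℝ := if k = 1 then 1 / (m : ℝ) else (k : ℝ) / 2

theorem dm_nonneg (m k : ℕ) : 0 ≤ dm m k := by
  unfold dm
  split_ifs <;> positivity

theorem dm_le (m k : ℕ) (hk : 1 ≤ k) : dm m k ≤ k := by
  unfold dm
  split_ifs with h
  · rw [h]
    rcases Nat.eq_zero_or_pos m with h0 | h0
    · rw [h0]; norm_num
    · rw [Nat.cast_one, div_le_one (by exact_mod_cast h0)]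
      exact_mod_cast h0
  · have : (0 : ℝ) ≤ k := by positivity
    linarith

/-- the critical range -/
theorem crit (m k : ℕ) (hk : 1 ≤ k) (hn : 3 ≤ m + k) (K₀ p δ : ℝ) (hK : 0 < K₀) (hδ : 0 ≤ δ)
    (hp0 : 1 < p) (hp1 : 2 * ((m + k : ℕ) : ℝ) / (((m + k : ℕ) : ℝ) + 1) ≤ p)
    (hp2 : p ≤ 2 * ((m + k : ℕ) : ℝ) / (((m + k : ℕ) : ℝ) - 1))
    (h : |1 / 2 - 1 / p| < (1 + 2 * δ) / (2 * ((m + k : ℕ) : ℝ))) :
    ∃ σ : ℝ, σ < δ ∧ PQ (m + k) (Xc m k (dm m k) K₀) p σ := by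
  rcases Nat.eq_or_lt_of_le hk with h1 | h1
  · obtain rfl : k = 1 := h1.symm
    rw [show dm m 1 = 1 / (m : ℝ) by simp [dm]]
    exact crit_one m (by omega) K₀ p δ hK hδ hp0 hp1 hp2 h
  · rw [show dm m k = (k : ℝ) / 2 by simp [dm]; omega]
    exact crit_two m k h1 K₀ p δ hK hδ hp0 hp1 h

/-- all exponents -/
theorem full (m k : ℕ) (hk : 1 ≤ k) (hn : 3 ≤ m + k) (hDN : S_DN (m + k)) (K₀ p δ : ℝ)
    (hK : 0 < K₀) (hδ : 0 ≤ δ) (hp0 : 1 < p)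
    (h : |1 / 2 - 1 / p| < (1 + 2 * δ) / (2 * ((m + k : ℕ) : ℝ))) :
    ∃ σ : ℝ, σ < δ ∧ PQ (m + k) (Xc m k (dm m k) K₀) p σ := by
  have hcr := crit m k hk hn K₀
  obtain ⟨D, hD, hDim⟩ := Xc_dim m k (dm m k) K₀ (dm_nonneg m k) (dm_le m k hk) hK
  set n : ℕ := m + k with hnd
  have hn3 : (3 : ℝ) ≤ n := by exact_mod_cast hn
  have hn1 : 0 < (n : ℝ) - 1 := by linarith
  have hn0 : (0 : ℝ) < n := by linarith
  have hq1 : 1 < 2 * (n : ℝ) / ((n : ℝ) + 1) := by rw [lt_div_iff₀ (by linarith)]; linarith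
  have hqq : 2 * (n : ℝ) / ((n : ℝ) + 1) ≤ 2 * (n : ℝ) / ((n : ℝ) - 1) := by
    gcongr
    linarith
  have e1 : ∀ τ : ℝ, 0 < τ → |1 / 2 - 1 / (2 * (n : ℝ) / ((n : ℝ) - 1))| <
      (1 + 2 * τ) / (2 * (n : ℝ)) := by
    intro τ hτ
    have : 1 / 2 - 1 / (2 * (n : ℝ) / ((n : ℝ) - 1)) = 1 / (2 * n) := by field_simp; ring
    rw [this, abs_of_pos (by positivity)]
    gcongr
    linarith
  have e2 : ∀ τ : ℝ, 0 < τ → |1 / 2 - 1 / (2 * (n : ℝ) / ((n : ℝ) + 1))| <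
      (1 + 2 * τ) / (2 * (n : ℝ)) := by
    intro τ hτ
    have : 1 / 2 - 1 / (2 * (n : ℝ) / ((n : ℝ) + 1)) = -(1 / (2 * n)) := by field_simp; ring
    rw [this, abs_neg, abs_of_pos (by positivity)]
    gcongr
    linarith
  rcases lt_or_ge p (2 * (n : ℝ) / ((n : ℝ) + 1)) with hp1 | hp1
  · have hp2 : p < 2 := by
      refine hp1.trans_le ?_
      rw [div_le_iff₀ (by linarith)]; linarith
    have hs : 1 / 2 - 1 / p ≤ 0 := by
      rw [sub_nonpos, one_div_le_one_div two_pos (by linarith)]; exact hp2.le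
    rw [abs_of_nonpos hs, lt_div_iff₀ (by positivity)] at h
    obtain ⟨σ, hσ1, hσ2⟩ := exists_between
      (show (n : ℝ) * (1 / p - 1 / 2) - 1 / 2 < δ by linarith)
    refine ⟨σ, hσ2, hDN _ D hD hDim (fun τ hτ => ?_) p σ hp0.le hp1 hσ1⟩
    obtain ⟨σ', hσ', hP⟩ := hcr (2 * (n : ℝ) / ((n : ℝ) + 1)) τ hK hτ.le hq1 le_rfl hqq (e2 τ hτ)
    exact hP.mono (by linarith) hσ'.le
  · rcases le_or_gt p (2 * (n : ℝ) / ((n : ℝ) - 1)) with hp2 | hp2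
    · exact hcr p δ hK hδ hp0 hp1 hp2 h
    · have h2p : 2 < p := by
        refine lt_of_le_of_lt ?_ hp2
        rw [le_div_iff₀ hn1]; linarith
      have hs : 0 ≤ 1 / 2 - 1 / p := by
        rw [sub_nonneg, one_div_le_one_div (by linarith) two_pos]; exact h2p.le
      rw [abs_of_nonneg hs, lt_div_iff₀ (by positivity)] at h
      obtain ⟨σ, hσ1, hσ2⟩ := exists_between
        (show (n : ℝ) * (1 / 2 - 1 / p) - 1 / 2 < δ by linarith)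
      refine ⟨σ, hσ2, t_up n (by omega) _ D hD hDim (fun τ hτ => ?_) p σ hp2 hσ1⟩
      obtain ⟨σ', hσ', hP⟩ := hcr (2 * (n : ℝ) / ((n : ℝ) - 1)) τ hK hτ.le
        (by linarith) hqq le_rfl (e1 τ hτ)
      exact hP.mono (by positivity) hσ'.le

/-- from the pieces to the means -/
theorem out_of_pq (n : ℕ) (hn : 2 ≤ n) (X : Measure (E n) → Prop) (p δ σ : ℝ) (hp : 1 ≤ p)
    (hδ : 0 ≤ δ) (hσ : σ < δ) (hPQ : PQ n X p σ) : ∃ C : ℝ, 0 < C ∧ ∀ μ : Measure (E n), X μ →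
    ∀ f : SchwartzMap (E n) ℂ,
      ∫⁻ x, ‖Sm δ 1 (fun y => f y) x‖ₑ ^ p ∂μ ≤ ENNReal.ofReal C * ∫⁻ x, ‖f x‖ₑ ^ p := by
  obtain ⟨ψ, hψ, hsum⟩ := t_hs n hn δ hδ
  obtain ⟨C, hC, hb⟩ := hPQ ψ hψ
  have hS : 0 < Sg (δ - σ) := by
    have hgeo := geo_s (δ - σ) (by linarith)
    have h1 : (2 : ℝ) ^ (-((δ - σ) * ((0 : ℕ) : ℝ))) ≤ Sg (δ - σ) :=
      hgeo.le_tsum 0 fun j _ => Real.rpow_nonneg (by norm_num) _
    have h2 : (2 : ℝ) ^ (-((δ - σ) * ((0 : ℕ) : ℝ))) = 1 := by simp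
    linarith
  refine ⟨C * Sg (δ - σ) ^ p, by positivity, fun μ hμ f => ?_⟩
  have hp0 : 0 < p := by linarith
  have h0 : ENNReal.ofReal p ≠ 0 := by
    rw [Ne, ENNReal.ofReal_eq_zero]; linarith
  have hfp : ∫⁻ x, ‖f x‖ₑ ^ p ≠ ∞ := by
    have h1 := lintegral_rpow_enorm_lt_top_of_eLpNorm_lt_top h0 ENNReal.ofReal_ne_top
      (f.memLp (ENNReal.ofReal p) (volume : Measure (E n))).2
    rw [ENNReal.toReal_ofReal hp0.le] at h1
    exact h1.ne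
  exact su_core hp hσ hC hψ hsum (R := fun _ => 1) radii_one f
    (fun A hA => hb μ hμ A hA (fun y => f y) f.continuous.measurable f.integrable hfp)

/-- cylinders, output -/
theorem cyl_outF (m k : ℕ) (hk : 1 ≤ k) (hn : 3 ≤ m + k) (hDN : S_DN (m + k)) (K₀ p δ : ℝ)
    (hK : 0 < K₀) (hδ : 0 ≤ δ) (hp0 : 1 < p)
    (h : |1 / 2 - 1 / p| < (1 + 2 * δ) / (2 * ((m + k : ℕ) : ℝ))) :
    ∃ C : ℝ, 0 < C ∧ ∀ ν : Measure (E k),
      (∀ (t : E k) (r : ℝ), 1 ≤ r → ν (closedBall t r) ≤ ENNReal.ofReal (K₀ * r ^ dm m k)) →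
      ∀ f : SchwartzMap (E (m + k)) ℂ,
        ∫⁻ x, ‖Sm δ 1 (fun y => f y) x‖ₑ ^ p ∂(cyl m ν) ≤ ENNReal.ofReal C * ∫⁻ x, ‖f x‖ₑ ^ p := by
  obtain ⟨σ, hσ, hPQ⟩ := full m k hk hn hDN K₀ p δ hK hδ hp0 h
  obtain ⟨C, hC, hb⟩ := out_of_pq (m + k) (by omega) _ p δ σ hp0.le hδ hσ hPQ
  exact ⟨C, hC, fun ν hν f => hb _ ⟨ν, hν, rfl⟩ f⟩

/-- cylinders, input -/
theorem cyl_inF (m k : ℕ) (hk : 1 ≤ k) (hn : 3 ≤ m + k) (hDN : S_DN (m + k)) (K₀ p δ : ℝ)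
    (hK : 0 < K₀) (hδ : 0 ≤ δ) (hp0 : 1 < p)
    (h : |1 / 2 - 1 / p| < (1 + 2 * δ) / (2 * ((m + k : ℕ) : ℝ))) :
    ∃ C : ℝ, 0 < C ∧ ∀ F : Set (E k), MeasurableSet F →
      (∀ (t : E k) (r : ℝ), 1 ≤ r →
        volume (F ∩ closedBall t r) ≤ ENNReal.ofReal (K₀ * r ^ dm m k)) →
      ∀ f : SchwartzMap (E (m + k)) ℂ, (∀ x, pr m x ∉ F → f x = 0) →
        ∫⁻ x, ‖Sm δ 1 (fun y => f y) x‖ₑ ^ p ≤ ENNReal.ofReal C * ∫⁻ x, ‖f x‖ₑ ^ p := by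
  have hp00 : 0 < p - 1 := by linarith
  set q : ℝ := p / (p - 1) with hq
  have hq1 : 1 < q := by rw [hq, lt_div_iff₀ hp00]; linarith
  have hqi : 1 / q = 1 - 1 / p := by
    rw [hq]; field_simp
  have hinv : 1 / q + 1 / p = 1 := by linarith
  have hh : |1 / 2 - 1 / q| < (1 + 2 * δ) / (2 * ((m + k : ℕ) : ℝ)) := by
    have : |1 / 2 - 1 / q| = |1 / 2 - 1 / p| := by
      rw [hqi, ← abs_neg]; congr 1; ring
    rw [this]; exact h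
  obtain ⟨C, hC, hb⟩ := cyl_outF m k hk hn hDN K₀ q δ hK hδ hq1 hh
  refine ⟨C ^ (p / q), Real.rpow_pos_of_pos hC _, fun F hF hFd f hf => ?_⟩
  have hpm : Measurable (pr m : E (m + k) → E k) := by
    unfold pr
    exact (continuous_snd.comp
      (EuclideanSpace.finAddEquivProd (𝕜 := ℝ) (n := m) (m := k)).continuous).measurable
  have hGm : MeasurableSet {x : E (m + k) | pr m x ∈ F} := hpm hF
  refine du_core hq1 hinv hδ hC hGm f hf fun h => ?_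
  rw [(Pool.Agent.Y79.FC.t_cy m k).2 F hF]
  refine hb _ (fun t r hr => ?_) h
  rw [Measure.restrict_apply isClosed_closedBall.measurableSet, inter_comm]
  exact hFd t r hr

end Pool.Agent.Y248.FD
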